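import Mathlib

/-!
The normed space with a given finite set of points: for vectors `w j` in `ℝ³` the space with the
unit ball `conv {± w j}` (on the span of the `w j`), realised as a dual space.
-/

namespace Pool.Agent.Lib.MP_b6bd4b_an.BP

variable {k : ℕ} (w : Fin k → Fin 3 → ℝ)

/-- the functions `j ↦ ∑ i, p i * w j i` -/
noncomputable def LL : (Fin 3 → ℝ) →ₗ[ℝ] (Fin k → ℝ) where
  toFun p j := ∑ i, p i * w j i
  map_add' p q := by
    ext j
    simp only [Pi.add_apply, add_mul, Finset.sum_add_distrib]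
  map_smul' r p := by
    ext j
    simp only [Pi.smul_apply, smul_eq_mul, mul_assoc, RingHom.id_apply, Finset.mul_sum]

/-- the space of functions -/
noncomputable abbrev WW : Submodule ℝ (Fin k → ℝ) := LinearMap.range (LL w)

/-- the element of `WW` -/
noncomputable def ee (p : Fin 3 → ℝ) : WW w := ⟨LL w p, LinearMap.mem_range_self _ p⟩

theorem ee_add (p q : Fin 3 → ℝ) : ee w (p + q) = ee w p + ee w q := by
  apply Subtype.ext
  simp [ee, map_add]

theorem ee_smul (r : ℝ) (p : Fin 3 → ℝ) : ee w (r • p) = r • ee w p := by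
  apply Subtype.ext
  simp only [ee, map_smul, Submodule.coe_smul]

theorem ee_surj (x : WW w) : ∃ p, x = ee w p := by
  obtain ⟨p, hp⟩ := x.2
  exact ⟨p, Subtype.ext hp.symm⟩

/-- the space -/
abbrev Blk0 : Type := StrongDual ℝ (WW w)

/-- the points -/
noncomputable def ev0 (j : Fin k) : Blk0 w :=
  (ContinuousLinearMap.proj (R := ℝ) (φ := fun _ : Fin k => ℝ) j).comp (WW w).subtypeL

/-- the coordinates -/
noncomputable def JJ0 : Blk0 w →L[ℝ] (Fin 3 → ℝ) :=
  ContinuousLinearMap.pi fun i => ContinuousLinearMap.apply ℝ ℝ (ee w (Pi.single i 1))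

theorem JJ_apply0 (ξ : Blk0 w) (i : Fin 3) : JJ0 w ξ i = ξ (ee w (Pi.single i 1)) := rfl

theorem JJ_ev0 (j : Fin k) : JJ0 w (ev0 w j) = w j := by
  ext i
  rw [JJ_apply0]
  simp [ev0, ee, LL, Pi.single_apply]

theorem ee_eq (p : Fin 3 → ℝ) : ee w p = ∑ i, p i • ee w (Pi.single i 1) := by
  apply Subtype.ext
  have h : p = ∑ i, p i • (Pi.single i (1 : ℝ) : Fin 3 → ℝ) := by
    ext i
    simp [Finset.sum_apply, Pi.single_apply]
  have h1 : LL w p = ∑ i, p i • LL w (Pi.single i 1) := by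
    conv_lhs => rw [h]
    rw [map_sum]
    simp only [map_smul]
  rw [Submodule.coe_sum]
  exact h1

theorem JJ_inj0 {ξ ζ : Blk0 w} (h : JJ0 w ξ = JJ0 w ζ) : ξ = ζ := by
  ext x
  obtain ⟨p, rfl⟩ := ee_surj w x
  rw [ee_eq, map_sum, map_sum]
  refine Finset.sum_congr rfl fun i _ => ?_
  rw [map_smul, map_smul]
  have := congrFun h i
  rw [JJ_apply0, JJ_apply0] at this
  rw [this]

theorem norm_ev0 (j : Fin k) : ‖ev0 w j‖ ≤ 1 := by
  apply ContinuousLinearMap.opNorm_le_bound _ zero_le_one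
  intro x
  rw [one_mul]
  exact norm_le_pi_norm (x : Fin k → ℝ) j

theorem rep0 (y : Blk0 w) : ∃ a : Fin k → ℝ, y = ∑ j, a j • ev0 w j ∧ ∑ j, |a j| ≤ ‖y‖ := by
  obtain ⟨g, hg1, hg2⟩ := exists_extension_norm_eq (WW w) y
  refine ⟨fun j => g (Pi.single j 1), ?_, ?_⟩
  · ext x
    rw [← hg1 x]
    have h1 : (x : Fin k → ℝ) = ∑ j, (x : Fin k → ℝ) j • Pi.single j (1 : ℝ) := by
      ext i
      simp [Finset.sum_apply, Pi.single_apply]
    conv_lhs => rw [h1]
    rw [map_sum, ContinuousLinearMap.sum_apply]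
    apply Finset.sum_congr rfl
    intro j _
    rw [map_smul, ContinuousLinearMap.smul_apply, smul_eq_mul, smul_eq_mul, mul_comm]
    rfl
  · rw [← hg2]
    have h1 : ∑ j, |g (Pi.single j 1)| = g (fun j => SignType.sign (g (Pi.single j 1))) := by
      have h2 : (fun j => ((SignType.sign (g (Pi.single j 1)) : SignType) : ℝ))
          = ∑ j, ((SignType.sign (g (Pi.single j 1)) : SignType) : ℝ) • Pi.single j (1 : ℝ) := by
        ext i
        simp [Finset.sum_apply, Pi.single_apply]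
      rw [h2, map_sum]
      apply Finset.sum_congr rfl
      intro j _
      rw [map_smul, smul_eq_mul, sign_mul_self]
    rw [h1]
    calc g (fun j => ((SignType.sign (g (Pi.single j 1)) : SignType) : ℝ))
        ≤ ‖g (fun j => ((SignType.sign (g (Pi.single j 1)) : SignType) : ℝ))‖ := le_abs_self _
      _ ≤ ‖g‖ * ‖(fun j => ((SignType.sign (g (Pi.single j 1)) : SignType) : ℝ))‖ := g.le_opNorm _
      _ ≤ ‖g‖ * 1 := by
          gcongr
          rw [pi_norm_le_iff_of_nonneg zero_le_one]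
          intro j
          rcases SignType.trichotomy (SignType.sign (g (Pi.single j 1))) with h | h | h <;>
            rw [h] <;> simp
      _ = ‖g‖ := mul_one _

/-- the space -/
def Blk : Type := Blk0 w

noncomputable instance : NormedAddCommGroup (Blk w) := inferInstanceAs (NormedAddCommGroup (Blk0 w))
noncomputable instance : NormedSpace ℝ (Blk w) := inferInstanceAs (NormedSpace ℝ (Blk0 w))
instance : CompleteSpace (Blk w) := inferInstanceAs (CompleteSpace (Blk0 w))
instance : FiniteDimensional ℝ (Blk w) := inferInstanceAs (FiniteDimensional ℝ (Blk0 w))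
instance : ProperSpace (Blk w) := FiniteDimensional.proper_real (Blk w)

/-- the points -/
noncomputable def ev (j : Fin k) : Blk w := ev0 w j

/-- the coordinates -/
noncomputable def JJ : Blk w →L[ℝ] (Fin 3 → ℝ) := JJ0 w

theorem JJ_ev (j : Fin k) : JJ w (ev w j) = w j := JJ_ev0 w j

theorem JJ_inj {ξ ζ : Blk w} (h : JJ w ξ = JJ w ζ) : ξ = ζ := JJ_inj0 w h

theorem norm_ev (j : Fin k) : ‖ev w j‖ ≤ 1 := norm_ev0 w j

theorem rep (y : Blk w) : ∃ a : Fin k → ℝ, y = ∑ j, a j • ev w j ∧ ∑ j, |a j| ≤ ‖y‖ := rep0 w y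

theorem bound {F : Type*} [NormedAddCommGroup F] [NormedSpace ℝ F] (g : (Fin 3 → ℝ) →ₗ[ℝ] F)
    {C : ℝ} (hC : 0 ≤ C) (h : ∀ j, ‖g (w j)‖ ≤ C) (ξ : Blk w) : ‖g (JJ w ξ)‖ ≤ C * ‖ξ‖ := by
  obtain ⟨a, ha, hs⟩ := rep w ξ
  have h1 : g (JJ w ξ) = ∑ j, a j • g (w j) := by
    conv_lhs => rw [ha]
    rw [map_sum, map_sum]
    refine Finset.sum_congr rfl fun j _ => ?_
    rw [map_smul, map_smul, JJ_ev]
  rw [h1]
  calc ‖∑ j, a j • g (w j)‖ ≤ ∑ j, ‖a j • g (w j)‖ := norm_sum_le _ _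
    _ ≤ ∑ j, |a j| * C := by
        refine Finset.sum_le_sum fun j _ => ?_
        rw [norm_smul, Real.norm_eq_abs]
        exact mul_le_mul_of_nonneg_left (h j) (abs_nonneg _)
    _ = C * ∑ j, |a j| := by rw [← Finset.sum_mul, mul_comm]
    _ ≤ C * ‖ξ‖ := mul_le_mul_of_nonneg_left hs hC

end Pool.Agent.Lib.MP_b6bd4b_an.BP
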