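import Mathlib

/-!
Second order behaviour of a norm near a point of twice continuous differentiability.
-/

open Set Filter Topology

namespace Pool.Agent.Lib.MP_b6bd4b_an.BP

variable {Y : Type*} [NormedAddCommGroup Y] [NormedSpace ℝ Y]

/-- the second derivative of the norm -/
noncomputable def BB (p : Y × Y) : ℝ := fderiv ℝ (fderiv ℝ fun v : Y => ‖v‖) p.1 p.2 p.2

theorem line_deriv (q v : Y) (t : ℝ) : HasDerivAt (fun t : ℝ => q + t • v) v t := by
  have h := ((hasDerivAt_id t).smul_const v).const_add q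
  simpa using h

theorem deriv_one {q v : Y} {t : ℝ} (h : ContDiffAt ℝ 2 (fun v : Y => ‖v‖) (q + t • v)) :
    HasDerivAt (fun t : ℝ => ‖q + t • v‖) (fderiv ℝ (fun v : Y => ‖v‖) (q + t • v) v) t := by
  have h1 : HasFDerivAt (fun v : Y => ‖v‖) (fderiv ℝ (fun v : Y => ‖v‖) (q + t • v)) (q + t • v) :=
    (h.differentiableAt (by norm_num)).hasFDerivAt
  exact h1.comp_hasDerivAt t (line_deriv q v t)

theorem deriv_two {q v : Y} {t : ℝ} (h : ContDiffAt ℝ 2 (fun v : Y => ‖v‖) (q + t • v)) :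
    HasDerivAt (fun t : ℝ => fderiv ℝ (fun v : Y => ‖v‖) (q + t • v) v) (BB (q + t • v, v)) t := by
  have h0 : ContDiffAt ℝ 1 (fderiv ℝ fun v : Y => ‖v‖) (q + t • v) :=
    h.fderiv_right (by norm_num)
  have h1 : HasFDerivAt (fderiv ℝ fun v : Y => ‖v‖)
      (fderiv ℝ (fderiv ℝ fun v : Y => ‖v‖) (q + t • v)) (q + t • v) :=
    (h0.differentiableAt (by norm_num)).hasFDerivAt
  have h2 := h1.comp_hasDerivAt t (line_deriv q v t)
  have h3 := h2.clm_apply (hasDerivAt_const t v)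
  simpa [BB] using h3

theorem BB_cont {y : Y} (h : ContDiffAt ℝ 2 (fun v : Y => ‖v‖) y) (e : Y) :
    ContinuousAt (BB : Y × Y → ℝ) (y, e) := by
  have h0 : ContDiffAt ℝ 1 (fderiv ℝ fun v : Y => ‖v‖) y := h.fderiv_right (by norm_num)
  have h1 : ContDiffAt ℝ 0 (fderiv ℝ (fderiv ℝ fun v : Y => ‖v‖)) y :=
    h0.fderiv_right (by norm_num)
  have h2 : ContinuousAt (fderiv ℝ (fderiv ℝ fun v : Y => ‖v‖)) y := h1.continuousAt
  have h3 : ContinuousAt (fun p : Y × Y => fderiv ℝ (fderiv ℝ fun v : Y => ‖v‖) p.1) (y, e) :=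
    ContinuousAt.comp (f := Prod.fst) (x := (y, e)) h2 continuousAt_fst
  exact (h3.clm_apply continuousAt_snd).clm_apply continuousAt_snd

theorem iter_two {y e : Y} (h : ContDiffAt ℝ 2 (fun v : Y => ‖v‖) y) :
    iteratedDeriv 2 (fun s : ℝ => ‖y + s • e‖) 0 = BB (y, e) := by
  rw [iteratedDeriv_succ, iteratedDeriv_one]
  have hev : ∀ᶠ x in 𝓝 y, ContDiffAt ℝ 2 (fun v : Y => ‖v‖) x := h.eventually (by simp)
  have hc : Tendsto (fun s : ℝ => y + s • e) (𝓝 0) (𝓝 y) := by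
    have : ContinuousAt (fun s : ℝ => y + s • e) 0 := (line_deriv y e 0).continuousAt
    have h2 := this.tendsto
    simpa using h2
  have h1 : deriv (fun s : ℝ => ‖y + s • e‖) =ᶠ[𝓝 0]
      fun s => fderiv ℝ (fun v : Y => ‖v‖) (y + s • e) e := by
    filter_upwards [hc.eventually hev] with s hs
    exact (deriv_one hs).deriv
  rw [h1.deriv_eq]
  have h2 : ContDiffAt ℝ 2 (fun v : Y => ‖v‖) (y + (0 : ℝ) • e) := by simpa using h
  have h3 := (deriv_two h2).deriv
  rw [h3]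
  simp

/-- **Second order bounds.** -/
theorem calc_main {y e : Y} (h : ContDiffAt ℝ 2 (fun v : Y => ‖v‖) y)
    (he : iteratedDeriv 2 (fun s : ℝ => ‖y + s • e‖) 0 ≠ 0) :
    ∃ κ r : ℝ, 0 < κ ∧ 0 < r ∧
      (∀ q v : Y, ‖q - y‖ ≤ r → ‖v - e‖ ≤ r →
        ConvexOn ℝ (Icc (-r) r) fun t : ℝ => ‖q + t • v‖ - 2 / 5 * κ * t ^ 2) ∧
      ConcaveOn ℝ (Icc (-r) r) fun t : ℝ => ‖y + t • e‖ - 3 / 5 * κ * t ^ 2 := by
  rw [iter_two h] at he
  set κ : ℝ := BB (y, e) with hκ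
  have hev : ∀ᶠ x in 𝓝 y, ContDiffAt ℝ 2 (fun v : Y => ‖v‖) x := h.eventually (by simp)
  have hev2 : ∀ᶠ p in 𝓝 (y, e), ContDiffAt ℝ 2 (fun v : Y => ‖v‖) p.1 ∧ |BB p - κ| < |κ| / 5 := by
    refine Filter.Eventually.and ?_ ?_
    · exact (continuousAt_fst (p := (y, e))).tendsto.eventually hev
    · have h1 := (BB_cont h e).tendsto
      have h2 : 0 < |κ| / 5 := by positivity
      have h3 := Metric.tendsto_nhds.1 h1 _ h2
      simpa [Real.dist_eq, hκ] using h3
  obtain ⟨R, hR, hball⟩ := Metric.eventually_nhds_iff.1 hev2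
  obtain ⟨r, hr, hr1, hr2⟩ : ∃ r : ℝ, 0 < r ∧ r ≤ 1 ∧ r * (‖e‖ + 2) < R := by
    refine ⟨min 1 (R / (2 * (‖e‖ + 2))), by positivity, min_le_left _ _, ?_⟩
    have h1 : min 1 (R / (2 * (‖e‖ + 2))) ≤ R / (2 * (‖e‖ + 2)) := min_le_right _ _
    have h2 : 0 < ‖e‖ + 2 := by positivity
    calc min 1 (R / (2 * (‖e‖ + 2))) * (‖e‖ + 2) ≤ R / (2 * (‖e‖ + 2)) * (‖e‖ + 2) := by gcongr
      _ = R / 2 := by field_simp
      _ < R := by linarith
  have hmem : ∀ q v : Y, ‖q - y‖ ≤ r → ‖v - e‖ ≤ r → ∀ t ∈ Icc (-r) r,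
      ContDiffAt ℝ 2 (fun v : Y => ‖v‖) (q + t • v) ∧ |BB (q + t • v, v) - κ| < |κ| / 5 := by
    intro q v hq hv t ht
    refine hball (y := (q + t • v, v)) ?_
    rw [Prod.dist_eq, max_lt_iff]
    have hv2 : ‖v‖ ≤ ‖e‖ + r := by
      have := norm_add_le (v - e) e
      rw [sub_add_cancel] at this
      linarith
    have ht2 : |t| ≤ r := abs_le.2 ht
    have h1 : (0 : ℝ) ≤ ‖e‖ := norm_nonneg _
    constructor
    · rw [dist_eq_norm]
      have h3 : q + t • v - y = (q - y) + t • v := by abel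
      rw [h3]
      calc ‖(q - y) + t • v‖ ≤ ‖q - y‖ + ‖t • v‖ := norm_add_le _ _
        _ ≤ r + r * (‖e‖ + r) := by
            rw [norm_smul, Real.norm_eq_abs]
            gcongr
        _ ≤ r * (‖e‖ + 2) := by nlinarith
        _ < R := hr2
    · rw [dist_eq_norm]
      calc ‖v - e‖ ≤ r := hv
        _ ≤ r * (‖e‖ + 2) := by nlinarith
        _ < R := hr2
  -- derivatives of the shifted functions
  have hd1 : ∀ (q v : Y) (c t : ℝ), ContDiffAt ℝ 2 (fun v : Y => ‖v‖) (q + t • v) →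
      HasDerivAt (fun t : ℝ => ‖q + t • v‖ - c * t ^ 2)
        (fderiv ℝ (fun v : Y => ‖v‖) (q + t • v) v - c * (2 * t)) t := by
    intro q v c t ht
    have h3 : HasDerivAt (fun t : ℝ => c * t ^ 2) (c * (2 * t)) t := by
      simpa using (hasDerivAt_pow 2 t).const_mul c
    exact (deriv_one ht).sub h3
  have hd2 : ∀ (q v : Y) (c t : ℝ), ContDiffAt ℝ 2 (fun v : Y => ‖v‖) (q + t • v) →
      HasDerivAt (fun t : ℝ => fderiv ℝ (fun v : Y => ‖v‖) (q + t • v) v - c * (2 * t))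
        (BB (q + t • v, v) - c * 2) t := by
    intro q v c t ht
    have h3 : HasDerivAt (fun t : ℝ => c * (2 * t)) (c * 2) t := by
      simpa using ((hasDerivAt_id t).const_mul 2).const_mul c
    exact (deriv_two ht).sub h3
  have hcvx : ∀ (q v : Y) (c : ℝ), ‖q - y‖ ≤ r → ‖v - e‖ ≤ r → 
      (∀ t ∈ Icc (-r) r, c * 2 ≤ BB (q + t • v, v)) →
      ConvexOn ℝ (Icc (-r) r) fun t : ℝ => ‖q + t • v‖ - c * t ^ 2 := by
    intro q v c hq hv hc
    refine convexOn_of_hasDerivWithinAt2_nonneg (convex_Icc _ _) (fun t ht => ?_)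
      (f' := fun t => fderiv ℝ (fun v : Y => ‖v‖) (q + t • v) v - c * (2 * t))
      (f'' := fun t => BB (q + t • v, v) - c * 2) (fun t ht => ?_) (fun t ht => ?_) (fun t ht => ?_)
    · exact (hd1 q v c t (hmem q v hq hv t ht).1).continuousAt.continuousWithinAt
    · exact (hd1 q v c t (hmem q v hq hv t (interior_subset ht)).1).hasDerivWithinAt
    · exact (hd2 q v c t (hmem q v hq hv t (interior_subset ht)).1).hasDerivWithinAt
    · linarith [hc t (interior_subset ht)]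
  have hccv : ∀ (c : ℝ), (∀ t ∈ Icc (-r) r, BB (y + t • e, e) ≤ c * 2) →
      ConcaveOn ℝ (Icc (-r) r) fun t : ℝ => ‖y + t • e‖ - c * t ^ 2 := by
    intro c hc
    have hq : ‖y - y‖ ≤ r := by simpa using hr.le
    have hv : ‖e - e‖ ≤ r := by simpa using hr.le
    refine concaveOn_of_hasDerivWithinAt2_nonpos (convex_Icc _ _) (fun t ht => ?_)
      (f' := fun t => fderiv ℝ (fun v : Y => ‖v‖) (y + t • e) e - c * (2 * t))
      (f'' := fun t => BB (y + t • e, e) - c * 2) (fun t ht => ?_) (fun t ht => ?_) (fun t ht => ?_)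
    · exact (hd1 y e c t (hmem y e hq hv t ht).1).continuousAt.continuousWithinAt
    · exact (hd1 y e c t (hmem y e hq hv t (interior_subset ht)).1).hasDerivWithinAt
    · exact (hd2 y e c t (hmem y e hq hv t (interior_subset ht)).1).hasDerivWithinAt
    · linarith [hc t (interior_subset ht)]
  have hq : ‖y - y‖ ≤ r := by simpa using hr.le
  have hv : ‖e - e‖ ≤ r := by simpa using hr.le
  have hκ0 : 0 < κ := by
    by_contra hneg
    push Not at hneg
    have hκn : κ < 0 := lt_of_le_of_ne hneg he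
    have hcc := hccv (2 / 5 * κ) (fun t ht => by
      have h1 := (abs_lt.1 (hmem y e hq hv t ht).2).2
      rw [abs_of_neg hκn] at h1
      linarith)
    have h2 := hcc.2 (right_mem_Icc.2 (by linarith : -r ≤ r)) (left_mem_Icc.2 (by linarith : -r ≤ r))
      (by norm_num : (0 : ℝ) ≤ 1 / 2) (by norm_num : (0 : ℝ) ≤ 1 / 2) (by norm_num)
    simp only [smul_eq_mul] at h2
    have h3 : (1 / 2 : ℝ) * r + 1 / 2 * -r = 0 := by ring
    rw [h3, zero_smul, add_zero] at h2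
    have h4 : 2 * ‖y‖ ≤ ‖y + r • e‖ + ‖y + (-r) • e‖ := by
      have h5 : (2 : ℝ) • y = (y + r • e) + (y + (-r) • e) := by
        rw [neg_smul, two_smul]
        abel
      calc 2 * ‖y‖ = ‖(2 : ℝ) • y‖ := by rw [norm_smul]; norm_num
        _ ≤ _ := by rw [h5]; exact norm_add_le _ _
    have h6 : 0 < r ^ 2 := by positivity
    nlinarith
  refine ⟨κ, r, hκ0, hr, fun q v hq hv => ?_, ?_⟩
  · refine hcvx q v _ hq hv fun t ht => ?_
    have h1 := (abs_lt.1 (hmem q v hq hv t ht).2).1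
    rw [abs_of_pos hκ0] at h1
    linarith
  · refine hccv _ fun t ht => ?_
    have h1 := (abs_lt.1 (hmem y e hq hv t ht).2).2
    rw [abs_of_pos hκ0] at h1
    linarith

end Pool.Agent.Lib.MP_b6bd4b_an.BP
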