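import Mathlib

/-!
Discrete convexity and the lower bound at a support functional.
-/

open Set

namespace Pool.Agent.Lib.MP_b6bd4b_an.BP

theorem diff_mono {K : ℕ} {Φ : ℕ → ℝ} (hcv : ∀ i, i + 2 ≤ K → 2 * Φ (i + 1) ≤ Φ i + Φ (i + 2))
    {a b : ℕ} (hab : a ≤ b) (hb : b + 1 ≤ K) : Φ (a + 1) - Φ a ≤ Φ (b + 1) - Φ b := by
  induction b, hab using Nat.le_induction with
  | base => exact le_rfl
  | succ n hn ih =>
    have h1 := ih (by omega)
    have h2 := hcv n (by omega)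
    have h3 : n + 1 + 1 = n + 2 := rfl
    rw [h3]
    linarith

/-- two maximal indices are the two first or the two last ones -/
theorem disc {K : ℕ} {Φ : ℕ → ℝ} {P : ℕ → Prop} {μ U : ℝ} (hμ : 0 < μ) (hU : U < μ)
    (hcv : ∀ i, i + 2 ≤ K → 2 * Φ (i + 1) ≤ Φ i + Φ (i + 2))
    (hup : ∀ i, i + 2 ≤ K → Φ i + Φ (i + 2) - 2 * Φ (i + 1) ≤ U)
    (hr : ∀ i, P i → i + 2 ≤ K → Φ i + μ ≤ Φ (i + 2))
    (hl : ∀ i, P (i + 2) → i + 2 ≤ K → Φ (i + 2) + μ ≤ Φ i)
    {p q : ℕ} (hp : P p) (hq : P q) (hpq : p < q) (hqK : q ≤ K) :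
    (p = 0 ∧ q = 1) ∨ (p + 1 = K ∧ q = K) := by
  by_cases h2 : p + 2 ≤ q
  · exfalso
    obtain ⟨b, rfl⟩ : ∃ b, q = b + 2 := ⟨q - 2, by omega⟩
    have h3 := hr p hp (by omega)
    have h4 := hl b hq hqK
    have h5 := diff_mono hcv (a := p) (b := b) (by omega) (by omega)
    have h6 := diff_mono hcv (a := p + 1) (b := b + 1) (by omega) (by omega)
    have e1 : p + 1 + 1 = p + 2 := rfl
    have e2 : b + 1 + 1 = b + 2 := rfl
    rw [e1, e2] at h6
    linarith
  · have hq1 : q = p + 1 := by omega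
    subst hq1
    by_cases hp0 : p = 0
    · left; exact ⟨hp0, by omega⟩
    · by_cases hK : p + 1 = K
      · right; exact ⟨hK, hK⟩
      · exfalso
        obtain ⟨a, rfl⟩ : ∃ a, p = a + 1 := ⟨p - 1, by omega⟩
        have h3 := hr (a + 1) hp (by omega)
        have h4 := hl a hq (by omega)
        have h5 := hup a (by omega)
        have h6 := hup (a + 1) (by omega)
        have e1 : a + 1 + 1 = a + 2 := rfl
        rw [e1] at h6
        linarith

variable {Y : Type*} [NormedAddCommGroup Y] [NormedSpace ℝ Y]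

/-- the second order lower bound at a support functional -/
theorem lower {q v : Y} {r m : ℝ}
    (hc : ConvexOn ℝ (Icc (-r) r) fun t : ℝ => ‖q + t • v‖ - m * t ^ 2)
    {g : StrongDual ℝ Y} (h1 : ∀ x, g x ≤ ‖x‖) (h2 : g q = ‖q‖) {t : ℝ} (ht : t ∈ Icc (-r) r) :
    g (q + t • v) + m * t ^ 2 ≤ ‖q + t • v‖ := by
  refine le_of_forall_pos_le_add fun ε hε => ?_
  have hr0 : 0 ≤ r := by linarith [ht.1, ht.2]
  set l : ℝ := min 1 (ε / (|m| * t ^ 2 + 1)) with hl
  have hp : 0 < |m| * t ^ 2 + 1 := by positivity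
  have hl0 : 0 < l := lt_min one_pos (by positivity)
  have hl1 : l ≤ 1 := min_le_left _ _
  have hlm : m * l * t ^ 2 ≤ ε := by
    have h3 : l * (|m| * t ^ 2 + 1) ≤ ε := by
      calc l * (|m| * t ^ 2 + 1) ≤ ε / (|m| * t ^ 2 + 1) * (|m| * t ^ 2 + 1) := by
            gcongr
            exact min_le_right _ _
        _ = ε := by field_simp
    have h4 : m * (l * t ^ 2) ≤ |m| * (l * t ^ 2) :=
      mul_le_mul_of_nonneg_right (le_abs_self m) (by positivity)
    nlinarith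
  have h3 := hc.2 ht (show (0 : ℝ) ∈ Icc (-r) r from ⟨by linarith, hr0⟩) hl0.le
    (by linarith : (0 : ℝ) ≤ 1 - l) (by ring)
  simp only [smul_eq_mul, mul_zero, add_zero, zero_smul] at h3
  have h4 := h1 (q + (l * t) • v)
  rw [map_add, map_smul, h2, smul_eq_mul] at h4
  rw [map_add, map_smul, h2, smul_eq_mul]
  have h5 : ‖q‖ + l * t * g v - m * (l * t) ^ 2 ≤
      l * (‖q + t • v‖ - m * t ^ 2) + (1 - l) * (‖q‖ - m * 0 ^ 2) := by linarith
  have h6 : l * (‖q‖ + t * g v + m * t ^ 2) ≤ l * (‖q + t • v‖ + m * l * t ^ 2) := by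
    nlinarith
  have h7 := le_of_mul_le_mul_left h6 hl0
  linarith

end Pool.Agent.Lib.MP_b6bd4b_an.BP
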