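import Mathlib
import Pool.Agent.Lib.MP_b6bd4b_an.BP.Block
import Pool.Agent.Lib.MP_b6bd4b_an.BP.Disc

/-!
The three dimensional blocks.
-/

open Set

namespace Pool.Agent.Lib.MP_b6bd4b_an.BP

/-- the parameters -/
structure Par (Y : Type*) [NormedAddCommGroup Y] [NormedSpace ℝ Y] where
  y : Y
  e : Y
  κ : ℝ
  r : ℝ
  ρ : ℝ
  ε : ℝ
  hκ : 0 < κ
  hr : 0 < r
  hρ : 0 < ρ
  hε : 0 < ε
  hy : 0 < ‖y‖
  hcv : ∀ q v : Y, ‖q - y‖ ≤ r → ‖v - e‖ ≤ r →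
    ConvexOn ℝ (Icc (-r) r) fun t : ℝ => ‖q + t • v‖ - 2 / 5 * κ * t ^ 2
  hcc : ConcaveOn ℝ (Icc (-r) r) fun t : ℝ => ‖y + t • e‖ - 3 / 5 * κ * t ^ 2
  hρr : ρ ≤ r
  hρ1 : ρ * ‖e‖ ≤ r / 2
  hρ2 : ρ * ‖e‖ ≤ ‖y‖ / 16
  hε1 : ε ≤ 1 / 10
  hε2 : ε * (2 * ‖y‖) ≤ r / 2
  hε3 : ε * (2 * ‖y‖) ≤ r * ρ

namespace Par

variable {Y : Type*} [NormedAddCommGroup Y] [NormedSpace ℝ Y] (D : Par Y)

/-- the positions -/
noncomputable def s (M i : ℕ) : ℝ := D.ρ * ((i : ℝ) - M) / M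

/-- the norms -/
noncomputable def φ (M i : ℕ) : ℝ := ‖D.y + D.s M i • D.e‖

/-- the points -/
noncomputable def w' (M i : ℕ) : Fin 3 → ℝ := (D.φ M i)⁻¹ • ![1, D.s M i, (-1) ^ i]

/-- the points -/
noncomputable def w (M : ℕ) : Fin (2 * M + 1) → Fin 3 → ℝ := fun j => D.w' M j

theorem s_succ {M : ℕ} (hM : 2 ≤ M) (i : ℕ) : D.s M (i + 1) = D.s M i + D.ρ / M := by
  have h : (M : ℝ) ≠ 0 := by positivity
  unfold s
  push_cast
  field_simp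
  ring

theorem s_two {M : ℕ} (hM : 2 ≤ M) (i : ℕ) : D.s M (i + 2) = D.s M i + 2 * (D.ρ / M) := by
  rw [show i + 2 = (i + 1) + 1 by ring, D.s_succ hM, D.s_succ hM]
  ring

theorem abs_s {M : ℕ} (hM : 2 ≤ M) {i : ℕ} (hi : i ≤ 2 * M) : |D.s M i| ≤ D.ρ := by
  have h : (0 : ℝ) < M := by positivity
  have h1 : (i : ℝ) ≤ 2 * M := by exact_mod_cast hi
  have h0 : (0 : ℝ) ≤ i := Nat.cast_nonneg i
  have hρ := D.hρ
  unfold s
  rw [abs_div, abs_of_pos h, div_le_iff₀ h, abs_mul, abs_of_pos hρ]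
  gcongr
  rw [abs_le]
  constructor <;> linarith

theorem φ_near {M : ℕ} (hM : 2 ≤ M) {i : ℕ} (hi : i ≤ 2 * M) : |D.φ M i - ‖D.y‖| ≤ ‖D.y‖ / 16 := by
  have h1 : |D.φ M i - ‖D.y‖| ≤ ‖D.y + D.s M i • D.e - D.y‖ := abs_norm_sub_norm_le _ _
  rw [add_sub_cancel_left, norm_smul, Real.norm_eq_abs] at h1
  refine h1.trans (le_trans ?_ D.hρ2)
  exact mul_le_mul_of_nonneg_right (D.abs_s hM hi) (norm_nonneg _)

theorem φ_lo {M : ℕ} (hM : 2 ≤ M) {i : ℕ} (hi : i ≤ 2 * M) : 15 / 16 * ‖D.y‖ ≤ D.φ M i := by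
  have := (abs_le.1 (D.φ_near hM hi)).1
  linarith

theorem φ_hi {M : ℕ} (hM : 2 ≤ M) {i : ℕ} (hi : i ≤ 2 * M) : D.φ M i ≤ 17 / 16 * ‖D.y‖ := by
  have := (abs_le.1 (D.φ_near hM hi)).2
  linarith

theorem φ_pos {M : ℕ} (hM : 2 ≤ M) {i : ℕ} (hi : i ≤ 2 * M) : 0 < D.φ M i := by
  have := D.φ_lo hM hi
  have := D.hy
  linarith

/-- second differences are nonnegative -/
theorem φ_cv {M : ℕ} (hM : 2 ≤ M) (i : ℕ) : 2 * D.φ M (i + 1) ≤ D.φ M i + D.φ M (i + 2) := by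
  unfold φ
  have h : (2 : ℝ) • (D.y + D.s M (i + 1) • D.e)
      = (D.y + D.s M i • D.e) + (D.y + D.s M (i + 2) • D.e) := by
    rw [D.s_succ hM, D.s_two hM]
    module
  calc 2 * ‖D.y + D.s M (i + 1) • D.e‖ = ‖(2 : ℝ) • (D.y + D.s M (i + 1) • D.e)‖ := by
        rw [norm_smul]; norm_num
    _ ≤ _ := by rw [h]; exact norm_add_le _ _

/-- second differences are small -/
theorem φ_cc {M : ℕ} (hM : 2 ≤ M) {i : ℕ} (hi : i + 2 ≤ 2 * M) :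
    D.φ M i + D.φ M (i + 2) - 2 * D.φ M (i + 1) ≤ 6 / 5 * D.κ * (D.ρ / M) ^ 2 := by
  have hmem : ∀ j, j ≤ 2 * M → D.s M j ∈ Icc (-D.r) D.r := fun j hj => by
    have := D.abs_s hM hj
    have h2 := D.hρr
    exact abs_le.1 (this.trans h2)
  have h := D.hcc.2 (hmem i (by omega)) (hmem (i + 2) hi)
    (by norm_num : (0 : ℝ) ≤ 1 / 2) (by norm_num : (0 : ℝ) ≤ 1 / 2) (by norm_num)
  simp only [smul_eq_mul] at h
  have h1 : 1 / 2 * D.s M i + 1 / 2 * D.s M (i + 2) = D.s M (i + 1) := by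
    rw [D.s_two hM, D.s_succ hM]
    ring
  rw [h1] at h
  have h2 : D.s M (i + 1) = D.s M i + D.ρ / M := D.s_succ hM i
  have h3 : D.s M (i + 2) = D.s M i + 2 * (D.ρ / M) := D.s_two hM i
  unfold φ
  have h4 : 3 / 5 * D.κ * (D.s M i ^ 2 + D.s M (i + 2) ^ 2 - 2 * D.s M (i + 1) ^ 2)
      = 6 / 5 * D.κ * (D.ρ / M) ^ 2 := by
    rw [h2, h3]
    ring
  linarith

/-- the vertices -/
noncomputable def v (M i : ℕ) : Blk (D.w M) := if h : i < 2 * M + 1 then ev (D.w M) ⟨i, h⟩ else 0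

theorem norm_v (M i : ℕ) : ‖D.v M i‖ ≤ 1 := by
  unfold v
  split_ifs
  · exact norm_ev _ _
  · simp

theorem J_v {M i : ℕ} (hi : i ≤ 2 * M) : JJ (D.w M) (D.v M i) = D.w' M i := by
  unfold v
  rw [dif_pos (by omega), JJ_ev]
  rfl

theorem J_φv {M : ℕ} (hM : 2 ≤ M) {i : ℕ} (hi : i ≤ 2 * M) :
    JJ (D.w M) (D.φ M i • D.v M i) = ![1, D.s M i, (-1) ^ i] := by
  rw [map_smul, D.J_v hi, w', smul_smul, mul_inv_cancel₀ (D.φ_pos hM hi).ne', one_smul]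

theorem v_coe (M : ℕ) (j : Fin (2 * M + 1)) : D.v M j = ev (D.w M) j := by
  unfold v
  rw [dif_pos j.2]

/-- the centre -/
noncomputable def c (M : ℕ) : Blk (D.w M) :=
  (1 / 2 : ℝ) • (D.φ M M • D.v M M) + (1 / 4 : ℝ) • (D.φ M (M + 1) • D.v M (M + 1)
    + D.φ M (M - 1) • D.v M (M - 1))

theorem s_mid {M : ℕ} : D.s M M = 0 := by
  unfold s
  simp

theorem φ_mid {M : ℕ} : D.φ M M = ‖D.y‖ := by
  unfold φ
  rw [D.s_mid]
  simp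

theorem J_c {M : ℕ} (hM : 2 ≤ M) : JJ (D.w M) (D.c M) = ![1, 0, 0] := by
  obtain ⟨n, rfl⟩ : ∃ n, M = n + 1 := ⟨M - 1, by omega⟩
  unfold c
  rw [map_add, map_smul, D.J_φv hM (by omega), map_smul, map_add, D.J_φv hM (by omega),
    D.J_φv hM (by omega), D.s_succ hM (n + 1), D.s_mid]
  have h1 : D.s (n + 1) (n + 1 - 1) = - (D.ρ / (n + 1 : ℕ)) := by
    have := D.s_succ hM n
    rw [D.s_mid] at this
    have e : n + 1 - 1 = n := rfl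
    rw [e]
    linarith
  rw [h1]
  have e : n + 1 - 1 = n := rfl
  rw [e]
  ext i
  fin_cases i
  · simp; norm_num
  · simp
  · simp [pow_succ]; ring

/-- the second coordinate vector -/
noncomputable def E1 (M : ℕ) : Blk (D.w M) :=
  (1 / (2 * D.ρ)) • (D.φ M (2 * M) • D.v M (2 * M) - D.φ M 0 • D.v M 0)

theorem s_last {M : ℕ} (hM : 2 ≤ M) : D.s M (2 * M) = D.ρ := by
  have h : (M : ℝ) ≠ 0 := by positivity
  unfold s
  push_cast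
  field_simp
  ring

theorem s_zero {M : ℕ} (hM : 2 ≤ M) : D.s M 0 = - D.ρ := by
  have h : (M : ℝ) ≠ 0 := by positivity
  unfold s
  push_cast
  field_simp
  ring

theorem J_E1 {M : ℕ} (hM : 2 ≤ M) : JJ (D.w M) (D.E1 M) = ![0, 1, 0] := by
  have hρ := D.hρ.ne'
  unfold E1
  rw [map_smul, map_sub, D.J_φv hM (by omega), D.J_φv hM (by omega), D.s_last hM, D.s_zero hM]
  ext i
  fin_cases i
  · simp
  · simp
    field_simp
    norm_num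
  · simp

theorem norm_E1 {M : ℕ} (hM : 2 ≤ M) : ‖D.E1 M‖ ≤ 2 * ‖D.y‖ / D.ρ := by
  have hρ := D.hρ
  unfold E1
  rw [norm_smul, Real.norm_of_nonneg (by positivity)]
  have h1 : ‖D.φ M (2 * M) • D.v M (2 * M) - D.φ M 0 • D.v M 0‖ ≤ 4 * ‖D.y‖ := by
    refine (norm_sub_le _ _).trans ?_
    rw [norm_smul, norm_smul, Real.norm_of_nonneg (D.φ_pos hM (by omega)).le,
      Real.norm_of_nonneg (D.φ_pos hM (by omega)).le]
    have h2 := D.norm_v M (2 * M)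
    have h3 := D.norm_v M 0
    have h4 := D.φ_hi hM (i := 2 * M) le_rfl
    have h5 := D.φ_hi hM (i := 0) (by omega)
    have h6 := D.hy
    have h7 := (D.φ_pos hM (i := 2 * M) le_rfl).le
    have h8 := (D.φ_pos hM (i := 0) (by omega)).le
    have h9 : D.φ M (2 * M) * ‖D.v M (2 * M)‖ ≤ D.φ M (2 * M) * 1 := by gcongr
    have h10 : D.φ M 0 * ‖D.v M 0‖ ≤ D.φ M 0 * 1 := by gcongr
    linarith
  calc 1 / (2 * D.ρ) * ‖D.φ M (2 * M) • D.v M (2 * M) - D.φ M 0 • D.v M 0‖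
      ≤ 1 / (2 * D.ρ) * (4 * ‖D.y‖) := by gcongr
    _ = 2 * ‖D.y‖ / D.ρ := by field_simp; norm_num

/-- the third coordinate vector -/
noncomputable def E2 (M : ℕ) : Blk (D.w M) := ((-1 : ℝ) ^ M) • (D.φ M M • D.v M M - D.c M)

theorem J_E2 {M : ℕ} (hM : 2 ≤ M) : JJ (D.w M) (D.E2 M) = ![0, 0, 1] := by
  unfold E2
  rw [map_smul, map_sub, D.J_φv hM (by omega), D.J_c hM, D.s_mid]
  have h : ((-1 : ℝ) ^ M) * (-1) ^ M = 1 := by
    rw [← mul_pow]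
    simp
  ext i
  fin_cases i
  · simp
  · simp
  · simp [h]

/-- the linear relations -/
theorem rel {M : ℕ} (hM : 2 ≤ M) {i : ℕ} (hi : i ≤ 2 * M) :
    D.φ M i • D.v M i = D.c M + D.s M i • D.E1 M + ((-1 : ℝ) ^ i) • D.E2 M := by
  apply JJ_inj (D.w M)
  rw [D.J_φv hM hi, map_add, map_add, map_smul, map_smul, D.J_c hM, D.J_E1 hM, D.J_E2 hM]
  ext j
  fin_cases j <;> simp

end Par

/-- the operator -/
noncomputable def TW {Y : Type*} [NormedAddCommGroup Y] [NormedSpace ℝ Y] (y e : Y) {k : ℕ}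
    (w : Fin k → Fin 3 → ℝ) : Blk w →L[ℝ] Y :=
  ((ContinuousLinearMap.proj (R := ℝ) (φ := fun _ : Fin 3 => ℝ) 0).comp (JJ w)).smulRight y
    + ((ContinuousLinearMap.proj (R := ℝ) (φ := fun _ : Fin 3 => ℝ) 1).comp (JJ w)).smulRight e

theorem TW_apply {Y : Type*} [NormedAddCommGroup Y] [NormedSpace ℝ Y] (y e : Y) {k : ℕ}
    (w : Fin k → Fin 3 → ℝ) (ξ : Blk w) : TW y e w ξ = JJ w ξ 0 • y + JJ w ξ 1 • e := rfl

end Pool.Agent.Lib.MP_b6bd4b_an.BP
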