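import Mathlib
import Pool.Agent.Lib.MP_b6bd4b_an.BP.Par

/-!
An operator close to `TW` attains its norm in a block at two vertices only near the ends.
-/

open Set

namespace Pool.Agent.Lib.MP_b6bd4b_an.BP

namespace Par

variable {Y : Type*} [NormedAddCommGroup Y] [NormedSpace ℝ Y] (D : Par Y)

theorem rel2 {M : ℕ} (hM : 2 ≤ M) {i : ℕ} (hi : i + 2 ≤ 2 * M) :
    D.φ M (i + 2) • D.v M (i + 2) = D.φ M i • D.v M i + (2 * (D.ρ / M)) • D.E1 M := by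
  rw [D.rel hM hi, D.rel hM (by omega), D.s_two hM, pow_add]
  simp only [even_two, Even.neg_pow, one_pow, mul_one, add_smul]
  abel

theorem T_φv {M : ℕ} (hM : 2 ≤ M) {i : ℕ} (hi : i ≤ 2 * M) :
    TW D.y D.e (D.w M) (D.φ M i • D.v M i) = D.y + D.s M i • D.e := by
  rw [TW_apply, D.J_φv hM hi]
  simp

theorem T_E1 {M : ℕ} (hM : 2 ≤ M) : TW D.y D.e (D.w M) (D.E1 M) = D.e := by
  rw [TW_apply, D.J_E1 hM]
  simp

theorem norm_φv {M : ℕ} (hM : 2 ≤ M) {i : ℕ} (hi : i ≤ 2 * M) :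
    ‖D.φ M i • D.v M i‖ ≤ D.φ M i := by
  have h0 := (D.φ_pos hM hi).le
  rw [norm_smul, Real.norm_of_nonneg h0]
  exact mul_le_of_le_one_right h0 (D.norm_v M i)

section

variable {M : ℕ} {S : Blk (D.w M) →L[ℝ] Y} {R : ℝ}

theorem near_y (hM : 2 ≤ M) (hST : ∀ ξ, ‖S ξ - TW D.y D.e (D.w M) ξ‖ ≤ D.ε * ‖ξ‖) {i : ℕ}
    (hi : i ≤ 2 * M) : ‖S (D.φ M i • D.v M i) - D.y‖ ≤ D.r := by
  have h1 := hST (D.φ M i • D.v M i)
  rw [D.T_φv hM hi] at h1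
  have h2 : S (D.φ M i • D.v M i) - D.y
      = (S (D.φ M i • D.v M i) - (D.y + D.s M i • D.e)) + D.s M i • D.e := by abel
  rw [h2]
  have h3 : ‖D.s M i • D.e‖ ≤ D.r / 2 := by
    rw [norm_smul, Real.norm_eq_abs]
    exact (mul_le_mul_of_nonneg_right (D.abs_s hM hi) (norm_nonneg _)).trans D.hρ1
  have h4 : D.ε * ‖D.φ M i • D.v M i‖ ≤ D.r / 2 := by
    refine le_trans ?_ D.hε2
    have h5 := D.norm_φv hM hi
    have h6 := D.φ_hi hM hi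
    have h7 := D.hε.le
    have h8 := D.hy
    gcongr
    linarith
  calc _ ≤ ‖S (D.φ M i • D.v M i) - (D.y + D.s M i • D.e)‖ + ‖D.s M i • D.e‖ := norm_add_le _ _
    _ ≤ D.r / 2 + D.r / 2 := add_le_add (h1.trans h4) h3
    _ = D.r := by ring

theorem near_e (hM : 2 ≤ M) (hST : ∀ ξ, ‖S ξ - TW D.y D.e (D.w M) ξ‖ ≤ D.ε * ‖ξ‖) :
    ‖S (D.E1 M) - D.e‖ ≤ D.r := by
  have h1 := hST (D.E1 M)
  rw [D.T_E1 hM] at h1
  refine h1.trans ?_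
  have h2 := D.norm_E1 hM
  have h3 := D.hε.le
  have h4 := D.hε3
  have h5 := D.hρ
  calc D.ε * ‖D.E1 M‖ ≤ D.ε * (2 * ‖D.y‖ / D.ρ) := by gcongr
    _ = D.ε * (2 * ‖D.y‖) / D.ρ := by ring
    _ ≤ D.r := by rw [div_le_iff₀ h5]; exact h4

/-- one step from a vertex at which the norm is attained -/
theorem step (hM : 2 ≤ M) (hS : ∀ ξ, ‖S ξ‖ ≤ R * ‖ξ‖) (hR : 0 ≤ R)
    (hST : ∀ ξ, ‖S ξ - TW D.y D.e (D.w M) ξ‖ ≤ D.ε * ‖ξ‖) {g : StrongDual ℝ Y}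
    (hg : ∀ x, g x ≤ ‖x‖) {i j : ℕ} (hi : i ≤ 2 * M) (hj : j ≤ 2 * M) {t : ℝ}
    (ht : t ∈ Icc (-D.r) D.r) (hs : D.s M j = D.s M i + t)
    (hv : D.φ M j • D.v M j = D.φ M i • D.v M i + t • D.E1 M) (hiR : g (S (D.v M i)) = R) :
    R * D.φ M i - D.s M i * g (S (D.E1 M)) + 2 / 5 * D.κ * t ^ 2
      ≤ R * D.φ M j - D.s M j * g (S (D.E1 M)) := by
  set q : Y := S (D.φ M i • D.v M i) with hq
  set a : Y := S (D.E1 M) with ha
  have h0 := (D.φ_pos hM hi).le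
  have h1 : g q = D.φ M i * R := by
    rw [hq, map_smul, map_smul, hiR, smul_eq_mul]
  have h2 : ‖q‖ ≤ R * D.φ M i := by
    refine (hS _).trans ?_
    have := D.norm_φv hM hi
    gcongr
  have h3 : g q = ‖q‖ := by
    refine le_antisymm (hg q) ?_
    rw [h1, mul_comm]
    exact h2
  have h4 := lower (D.hcv q a (D.near_y hM hST hi) (D.near_e hM hST)) hg h3 ht
  have h5 : q + t • a = S (D.φ M j • D.v M j) := by
    rw [hv, map_add, ← hq, map_smul, ← ha]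
  have h6 : ‖q + t • a‖ ≤ R * D.φ M j := by
    rw [h5]
    refine (hS _).trans ?_
    have := D.norm_φv hM hj
    gcongr
  rw [map_add, map_smul, smul_eq_mul, h1] at h4
  rw [hs]
  nlinarith

theorem core (hM : 2 ≤ M) (hS : ∀ ξ, ‖S ξ‖ ≤ R * ‖ξ‖) (hR : 0 ≤ R) (hR1 : R ≤ 11 / 10)
    (hST : ∀ ξ, ‖S ξ - TW D.y D.e (D.w M) ξ‖ ≤ D.ε * ‖ξ‖) {g : StrongDual ℝ Y}
    (hg : ∀ x, g x ≤ ‖x‖) {p q : ℕ} (hpq : p < q) (hq : q ≤ 2 * M)
    (hpR : g (S (D.v M p)) = R) (hqR : g (S (D.v M q)) = R) :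
    (p = 0 ∧ q = 1) ∨ (p + 1 = 2 * M ∧ q = 2 * M) := by
  have hM0 : (0 : ℝ) < M := by positivity
  have hδ : 0 < D.ρ / M := div_pos D.hρ hM0
  have hδ2 : 2 * (D.ρ / M) ≤ D.r := by
    have h1 : (2 : ℝ) ≤ M := by exact_mod_cast hM
    have h2 : 2 * (D.ρ / M) ≤ D.ρ := by
      rw [← mul_div_assoc, div_le_iff₀ hM0]
      nlinarith [D.hρ]
    exact h2.trans D.hρr
  have hκ := D.hκ
  refine disc (K := 2 * M) (Φ := fun i => R * D.φ M i - D.s M i * g (S (D.E1 M)))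
    (P := fun i => i ≤ 2 * M ∧ g (S (D.v M i)) = R) (μ := 8 / 5 * D.κ * (D.ρ / M) ^ 2)
    (U := R * (6 / 5 * D.κ * (D.ρ / M) ^ 2)) (by positivity) ?_ (fun i hi => ?_) (fun i hi => ?_)
    (fun i hi hi2 => ?_) (fun i hi hi2 => ?_) ⟨by omega, hpR⟩ ⟨hq, hqR⟩ hpq hq
  · have h : 0 < D.κ * (D.ρ / M) ^ 2 := by positivity
    nlinarith
  · have h1 := D.φ_cv hM i
    have h2 := D.s_succ hM i
    have h3 := D.s_two hM i
    rw [h2, h3]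
    nlinarith
  · have h1 := D.φ_cc hM hi
    have h2 := D.s_succ hM i
    have h3 := D.s_two hM i
    rw [h2, h3]
    nlinarith
  · have h1 := D.step hM hS hR hST hg hi.1 hi2 (t := 2 * (D.ρ / M))
      ⟨by linarith, hδ2⟩ (D.s_two hM i) (D.rel2 hM hi2) hi.2
    nlinarith
  · have h1 := D.step hM hS hR hST hg hi.1 (by omega : i ≤ 2 * M) (t := -(2 * (D.ρ / M)))
      ⟨by linarith, by linarith⟩ (by rw [D.s_two hM i]; ring)
      (by rw [D.rel2 hM hi2, neg_smul]; abel) hi.2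
    nlinarith

end

end Par

end Pool.Agent.Lib.MP_b6bd4b_an.BP
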