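import Mathlib
import Pool.Agent.Lib.MP_b6bd4b_an.BP.Core

/-!
A point of a block at which an operator close to `TW` attains its norm is far from the centre.
-/

open Set

namespace Pool.Agent.Lib.MP_b6bd4b_an.BP

namespace Par

variable {Y : Type*} [NormedAddCommGroup Y] [NormedSpace ℝ Y] (D : Par Y)

theorem φ_inv {M : ℕ} (hM : 2 ≤ M) {i : ℕ} (hi : i ≤ 2 * M) : 1 / (2 * ‖D.y‖) ≤ (D.φ M i)⁻¹ := by
  have h1 := D.φ_hi hM hi
  have h2 := D.φ_pos hM hi
  have h3 := D.hy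
  rw [inv_eq_one_div]
  exact one_div_le_one_div_of_le h2 (by linarith)

theorem φ_inv' {M : ℕ} (hM : 2 ≤ M) {i : ℕ} (hi : i ≤ 2 * M) :
    (D.φ M i)⁻¹ ≤ 16 / (15 * ‖D.y‖) := by
  have h1 := D.φ_lo hM hi
  have h2 := D.φ_pos hM hi
  have h3 := D.hy
  rw [inv_eq_one_div, div_le_div_iff₀ h2 (by positivity)]
  linarith

theorem T_v {M : ℕ} {i : ℕ} (hi : i ≤ 2 * M) :
    TW D.y D.e (D.w M) (D.v M i) = (D.φ M i)⁻¹ • (D.y + D.s M i • D.e) := by
  rw [TW_apply, D.J_v hi, w']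
  simp [smul_add, smul_smul]

theorem T_near {M : ℕ} (hM : 2 ≤ M) {i : ℕ} (hi : i ≤ 2 * M) :
    ‖TW D.y D.e (D.w M) (D.v M i) - ‖D.y‖⁻¹ • D.y‖ ≤ 2 / 15 := by
  rw [D.T_v hi]
  have hy := D.hy
  have h0 := D.φ_pos hM hi
  have h1 : (D.φ M i)⁻¹ • (D.y + D.s M i • D.e) - ‖D.y‖⁻¹ • D.y
      = (D.φ M i)⁻¹ • (D.s M i • D.e) + ((D.φ M i)⁻¹ - ‖D.y‖⁻¹) • D.y := by
    rw [smul_add, sub_smul]
    abel
  have h2 : ‖D.s M i • D.e‖ ≤ ‖D.y‖ / 16 := by
    rw [norm_smul, Real.norm_eq_abs]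
    exact (mul_le_mul_of_nonneg_right (D.abs_s hM hi) (norm_nonneg _)).trans D.hρ2
  have h3 : |(D.φ M i)⁻¹ - ‖D.y‖⁻¹| * ‖D.y‖ ≤ (D.φ M i)⁻¹ * (‖D.y‖ / 16) := by
    have e : (D.φ M i)⁻¹ - ‖D.y‖⁻¹ = (D.φ M i)⁻¹ * (‖D.y‖ - D.φ M i) * ‖D.y‖⁻¹ := by
      field_simp
    rw [e, abs_mul, abs_mul, abs_of_pos (inv_pos.2 h0), abs_of_pos (inv_pos.2 hy),
      mul_assoc, mul_assoc, inv_mul_cancel₀ hy.ne', mul_one, abs_sub_comm]
    exact mul_le_mul_of_nonneg_left (D.φ_near hM hi) (inv_pos.2 h0).le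
  have h4 := D.φ_inv' hM hi
  rw [h1]
  calc _ ≤ ‖(D.φ M i)⁻¹ • (D.s M i • D.e)‖ + ‖((D.φ M i)⁻¹ - ‖D.y‖⁻¹) • D.y‖ := norm_add_le _ _
    _ ≤ (D.φ M i)⁻¹ * (‖D.y‖ / 16) + (D.φ M i)⁻¹ * (‖D.y‖ / 16) := by
        rw [norm_smul, norm_smul ((D.φ M i)⁻¹ - ‖D.y‖⁻¹), Real.norm_of_nonneg (inv_pos.2 h0).le,
          Real.norm_eq_abs]
        exact add_le_add (mul_le_mul_of_nonneg_left h2 (inv_pos.2 h0).le) h3
    _ = (D.φ M i)⁻¹ * (‖D.y‖ / 8) := by ring
    _ ≤ 16 / (15 * ‖D.y‖) * (‖D.y‖ / 8) := mul_le_mul_of_nonneg_right h4 (by positivity)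
    _ = 2 / 15 := by field_simp; norm_num

section

variable {M : ℕ} {S : Blk (D.w M) →L[ℝ] Y} {R : ℝ}

/-- nonnegative combinations of vertices at which the norm is attained -/
theorem comb (hM : 2 ≤ M) (hS : ∀ ξ, ‖S ξ‖ ≤ R * ‖ξ‖) (hR : 0 ≤ R) (hR1 : R ≤ 11 / 10)
    (hST : ∀ ξ, ‖S ξ - TW D.y D.e (D.w M) ξ‖ ≤ D.ε * ‖ξ‖) {g : StrongDual ℝ Y}
    (hg : ∀ x, g x ≤ ‖x‖) {b : Fin (2 * M + 1) → ℝ} (hb : ∀ j, 0 ≤ b j)
    (hbR : ∀ j : Fin (2 * M + 1), 0 < b j → g (S (D.v M j)) = R) :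
    (∑ j, b j) / (2 * ‖D.y‖) ≤ |∑ j : Fin (2 * M + 1), b j * ((D.φ M j)⁻¹ * (-1) ^ (j : ℕ))| ∨
    D.ρ * (∑ j, b j) / (4 * ‖D.y‖) ≤
      |∑ j : Fin (2 * M + 1), b j * ((D.φ M j)⁻¹ * D.s M j)| := by
  have hy := D.hy
  have hρ := D.hρ
  have hM0 : (0 : ℝ) < M := by positivity
  have hδ2 : D.ρ / M ≤ D.ρ / 2 := by
    have h1 : (2 : ℝ) ≤ M := by exact_mod_cast hM
    exact div_le_div_of_nonneg_left hρ.le (by norm_num) h1
  have hle : ∀ j : Fin (2 * M + 1), (j : ℕ) ≤ 2 * M := fun j => by have := j.2; omega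
  by_cases hex : ∃ p q : Fin (2 * M + 1), p < q ∧ 0 < b p ∧ 0 < b q
  · right
    obtain ⟨p, q, hpq, hp, hq⟩ := hex
    have hcore : ∀ i j : Fin (2 * M + 1), i < j → 0 < b i → 0 < b j →
        ((i : ℕ) = 0 ∧ (j : ℕ) = 1) ∨ ((i : ℕ) + 1 = 2 * M ∧ (j : ℕ) = 2 * M) :=
      fun i j hij hi hj => D.core hM hS hR hR1 hST hg (by exact hij) (hle j) (hbR i hi) (hbR j hj)
    rcases hcore p q hpq hp hq with ⟨hp0, hq1⟩ | ⟨hp0, hq1⟩
    · -- the left end
      have hsup : ∀ j : Fin (2 * M + 1), 0 < b j → (j : ℕ) ≤ 1 := by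
        intro j hj
        by_contra hlt
        push Not at hlt
        have h1 : p < j := by
          rw [Fin.lt_def]; omega
        rcases hcore p j h1 hp hj with h2 | h2 <;> omega
      have hterm : ∀ j : Fin (2 * M + 1),
          b j * ((D.φ M j)⁻¹ * D.s M j) ≤ -(D.ρ / (4 * ‖D.y‖)) * b j := by
        intro j
        rcases (hb j).eq_or_lt with h0 | h0
        · rw [← h0]; simp
        · have h1 : D.s M j ≤ -(D.ρ / 2) := by
            have h2 := hsup j h0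
            have h3 : (j : ℕ) = 0 ∨ (j : ℕ) = 1 := by omega
            rcases h3 with h3 | h3
            · rw [h3, D.s_zero hM]; linarith
            · rw [h3, D.s_succ hM 0, D.s_zero hM]; linarith
          have h4 := D.φ_inv hM (hle j)
          have h5 : (D.φ M j)⁻¹ * D.s M j ≤ -(D.ρ / (4 * ‖D.y‖)) := by
            have h6 : (D.φ M j)⁻¹ * D.s M j ≤ (D.φ M j)⁻¹ * -(D.ρ / 2) :=
              mul_le_mul_of_nonneg_left h1 (inv_pos.2 (D.φ_pos hM (hle j))).le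
            have h7 : 1 / (2 * ‖D.y‖) * (D.ρ / 2) ≤ (D.φ M j)⁻¹ * (D.ρ / 2) :=
              mul_le_mul_of_nonneg_right h4 (by positivity)
            have h8 : 1 / (2 * ‖D.y‖) * (D.ρ / 2) = D.ρ / (4 * ‖D.y‖) := by
              field_simp; norm_num
            linarith
          have := mul_le_mul_of_nonneg_left h5 h0.le
          linarith
      have hsum := Finset.sum_le_sum fun j (_ : j ∈ Finset.univ) => hterm j
      rw [← Finset.mul_sum] at hsum
      have h9 := neg_le_abs (∑ j : Fin (2 * M + 1), b j * ((D.φ M j)⁻¹ * D.s M j))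
      have h10 : D.ρ * (∑ j, b j) / (4 * ‖D.y‖) = D.ρ / (4 * ‖D.y‖) * ∑ j, b j := by ring
      rw [h10]
      linarith
    · -- the right end
      have hsup : ∀ j : Fin (2 * M + 1), 0 < b j → 2 * M ≤ (j : ℕ) + 1 := by
        intro j hj
        by_contra hlt
        push Not at hlt
        have h1 : j < q := by
          rw [Fin.lt_def]; omega
        rcases hcore j q h1 hj hq with h2 | h2 <;> omega
      have hterm : ∀ j : Fin (2 * M + 1),
          D.ρ / (4 * ‖D.y‖) * b j ≤ b j * ((D.φ M j)⁻¹ * D.s M j) := by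
        intro j
        rcases (hb j).eq_or_lt with h0 | h0
        · rw [← h0]; simp
        · have h1 : D.ρ / 2 ≤ D.s M j := by
            have h2 := hsup j h0
            have h20 := hle j
            have h3 : (j : ℕ) = 2 * M ∨ (j : ℕ) + 1 = 2 * M := by omega
            rcases h3 with h3 | h3
            · rw [h3, D.s_last hM]; linarith
            · have h4 := D.s_succ hM j
              rw [h3, D.s_last hM] at h4
              linarith
          have h4 := D.φ_inv hM (hle j)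
          have h5 : D.ρ / (4 * ‖D.y‖) ≤ (D.φ M j)⁻¹ * D.s M j := by
            have h6 : (D.φ M j)⁻¹ * (D.ρ / 2) ≤ (D.φ M j)⁻¹ * D.s M j :=
              mul_le_mul_of_nonneg_left h1 (inv_pos.2 (D.φ_pos hM (hle j))).le
            have h7 : 1 / (2 * ‖D.y‖) * (D.ρ / 2) ≤ (D.φ M j)⁻¹ * (D.ρ / 2) :=
              mul_le_mul_of_nonneg_right h4 (by positivity)
            have h8 : 1 / (2 * ‖D.y‖) * (D.ρ / 2) = D.ρ / (4 * ‖D.y‖) := by
              field_simp; norm_num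
            linarith
          have := mul_le_mul_of_nonneg_left h5 h0.le
          linarith
      have hsum := Finset.sum_le_sum fun j (_ : j ∈ Finset.univ) => hterm j
      rw [← Finset.mul_sum] at hsum
      have h9 := le_abs_self (∑ j : Fin (2 * M + 1), b j * ((D.φ M j)⁻¹ * D.s M j))
      have h10 : D.ρ * (∑ j, b j) / (4 * ‖D.y‖) = D.ρ / (4 * ‖D.y‖) * ∑ j, b j := by ring
      rw [h10]
      linarith
  · left
    push Not at hex
    by_cases hall : ∀ j, b j = 0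
    · simp [hall]
    · push Not at hall
      obtain ⟨p, hp⟩ := hall
      have hp0 : 0 < b p := lt_of_le_of_ne (hb p) (Ne.symm hp)
      have hz : ∀ j, j ≠ p → b j = 0 := by
        intro j hj
        rcases lt_or_gt_of_ne hj with h | h
        · by_contra h0
          have h1 : 0 < b j := lt_of_le_of_ne (hb j) (Ne.symm h0)
          have := hex j p h h1
          linarith
        · have := hex p j h hp0
          linarith [hb j]
      rw [Finset.sum_eq_single p (fun j _ hj => hz j hj) (fun h => absurd (Finset.mem_univ _) h),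
        Finset.sum_eq_single p (fun j _ hj => by rw [hz j hj, zero_mul])
          (fun h => absurd (Finset.mem_univ _) h)]
      rw [abs_mul, abs_mul, abs_of_pos hp0, abs_of_pos (inv_pos.2 (D.φ_pos hM (hle p))), abs_pow,
        abs_neg, abs_one, one_pow, mul_one]
      have h4 := D.φ_inv hM (hle p)
      calc b p / (2 * ‖D.y‖) = b p * (1 / (2 * ‖D.y‖)) := by ring
        _ ≤ b p * (D.φ M p)⁻¹ := mul_le_mul_of_nonneg_left h4 hp0.le

theorem far (hM : 2 ≤ M) (hS : ∀ ξ, ‖S ξ‖ ≤ R * ‖ξ‖) (hR0 : 9 / 10 ≤ R) (hR1 : R ≤ 11 / 10)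
    (hST : ∀ ξ, ‖S ξ - TW D.y D.e (D.w M) ξ‖ ≤ D.ε * ‖ξ‖) {ζ : Blk (D.w M)}
    (hζ : ‖S ζ‖ = R * ‖ζ‖) :
    ‖ζ‖ / (2 * ‖D.y‖) ≤ |JJ (D.w M) ζ 2| ∨ D.ρ * ‖ζ‖ / (4 * ‖D.y‖) ≤ |JJ (D.w M) ζ 1| := by
  have hR : 0 < R := by linarith
  obtain ⟨g, hg1, hg2⟩ := exists_dual_vector'' ℝ (S ζ)
  have hga : ∀ x, |g x| ≤ ‖x‖ := fun x => by
    have := g.le_of_opNorm_le hg1 x
    rwa [one_mul, Real.norm_eq_abs] at this
  have hg : ∀ x, g x ≤ ‖x‖ := fun x => (le_abs_self _).trans (hga x)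
  have hg' : ∀ x, (-g) x ≤ ‖x‖ := fun x => (neg_le_abs _).trans (hga x)
  obtain ⟨a, ha, hs⟩ := rep (D.w M) ζ
  have hle : ∀ j : Fin (2 * M + 1), (j : ℕ) ≤ 2 * M := fun j => by have := j.2; omega
  have hSv : ∀ j : Fin (2 * M + 1), |g (S (ev (D.w M) j))| ≤ R := by
    intro j
    refine (hga _).trans ((hS _).trans ?_)
    have := norm_ev (D.w M) j
    calc R * ‖ev (D.w M) j‖ ≤ R * 1 := by gcongr
      _ = R := mul_one R
  have hterm : ∀ j, a j * g (S (ev (D.w M) j)) ≤ R * |a j| := by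
    intro j
    calc a j * g (S (ev (D.w M) j)) ≤ |a j * g (S (ev (D.w M) j))| := le_abs_self _
      _ = |a j| * |g (S (ev (D.w M) j))| := abs_mul _ _
      _ ≤ |a j| * R := mul_le_mul_of_nonneg_left (hSv j) (abs_nonneg _)
      _ = R * |a j| := mul_comm _ _
  have hsum : ∑ j, a j * g (S (ev (D.w M) j)) = R * ‖ζ‖ := by
    have h1 : g (S ζ) = ∑ j, a j * g (S (ev (D.w M) j)) := by
      conv_lhs => rw [ha]
      rw [map_sum, map_sum]
      refine Finset.sum_congr rfl fun j _ => ?_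
      rw [map_smul, map_smul, smul_eq_mul]
    rw [← h1, hg2, ← hζ]
    rfl
  have hsum2 : R * ∑ j, |a j| ≤ R * ‖ζ‖ := mul_le_mul_of_nonneg_left hs hR.le
  have hle1 : ∑ j, a j * g (S (ev (D.w M) j)) ≤ ∑ j, R * |a j| :=
    Finset.sum_le_sum fun j _ => hterm j
  have heq1 : ∑ j, a j * g (S (ev (D.w M) j)) = ∑ j, R * |a j| := by
    refine le_antisymm hle1 ?_
    rw [← Finset.mul_sum, hsum]
    exact hsum2
  have heq : ∀ j, a j * g (S (ev (D.w M) j)) = R * |a j| := fun j =>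
    (Finset.sum_eq_sum_iff_of_le fun j _ => hterm j).1 heq1 j (Finset.mem_univ j)
  have hnorm : ∑ j, |a j| = ‖ζ‖ := by
    rw [hsum, ← Finset.mul_sum] at heq1
    exact (mul_left_cancel₀ hR.ne' heq1).symm
  have hpos : ∀ j, 0 < a j → g (S (ev (D.w M) j)) = R := by
    intro j hj
    have h1 := heq j
    rw [abs_of_pos hj, mul_comm R] at h1
    exact mul_left_cancel₀ hj.ne' h1
  have hneg : ∀ j, a j < 0 → g (S (ev (D.w M) j)) = -R := by
    intro j hj
    have h1 := heq j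
    rw [abs_of_neg hj] at h1
    have h2 : a j * g (S (ev (D.w M) j)) = a j * -R := by rw [h1]; ring
    exact mul_left_cancel₀ hj.ne h2
  -- all signs agree
  have hsign : ∀ i j, 0 < a i → a j < 0 → False := by
    intro i j hi hj
    have h1 := hpos i hi
    have h2 := hneg j hj
    have h3 : 2 * R ≤ ‖S (ev (D.w M) i) - S (ev (D.w M) j)‖ := by
      have := hg (S (ev (D.w M) i) - S (ev (D.w M) j))
      rw [map_sub, h1, h2] at this
      linarith
    have h4 : ∀ l : Fin (2 * M + 1),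
        ‖S (ev (D.w M) l) - ‖D.y‖⁻¹ • D.y‖ ≤ 1 / 10 + 2 / 15 := by
      intro l
      have h5 := hST (ev (D.w M) l)
      have h6 := norm_ev (D.w M) l
      have h7 : D.ε * ‖ev (D.w M) l‖ ≤ 1 / 10 := by
        calc D.ε * ‖ev (D.w M) l‖ ≤ D.ε * 1 := by
              have := D.hε.le
              gcongr
          _ ≤ 1 / 10 := by rw [mul_one]; exact D.hε1
      have h8 := D.T_near hM (hle l)
      rw [D.v_coe] at h8
      have h9 : S (ev (D.w M) l) - ‖D.y‖⁻¹ • D.y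
          = (S (ev (D.w M) l) - TW D.y D.e (D.w M) (ev (D.w M) l))
            + (TW D.y D.e (D.w M) (ev (D.w M) l) - ‖D.y‖⁻¹ • D.y) := by abel
      rw [h9]
      exact (norm_add_le _ _).trans (add_le_add (h5.trans h7) h8)
    have h5 : S (ev (D.w M) i) - S (ev (D.w M) j)
        = (S (ev (D.w M) i) - ‖D.y‖⁻¹ • D.y) - (S (ev (D.w M) j) - ‖D.y‖⁻¹ • D.y) := by abel
    rw [h5] at h3
    have h6 := norm_sub_le (S (ev (D.w M) i) - ‖D.y‖⁻¹ • D.y) (S (ev (D.w M) j) - ‖D.y‖⁻¹ • D.y)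
    have h7 := h4 i
    have h8 := h4 j
    linarith
  -- coordinates
  have hJ : ∀ l, JJ (D.w M) ζ l = ∑ j : Fin (2 * M + 1), a j * D.w' M j l := by
    intro l
    conv_lhs => rw [ha]
    rw [map_sum, Finset.sum_apply]
    refine Finset.sum_congr rfl fun j _ => ?_
    rw [map_smul, JJ_ev]
    rfl
  have hJ2 : JJ (D.w M) ζ 2 = ∑ j : Fin (2 * M + 1), a j * ((D.φ M j)⁻¹ * (-1) ^ (j : ℕ)) := by
    rw [hJ]
    refine Finset.sum_congr rfl fun j _ => ?_
    simp [w']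
  have hJ1 : JJ (D.w M) ζ 1 = ∑ j : Fin (2 * M + 1), a j * ((D.φ M j)⁻¹ * D.s M j) := by
    rw [hJ]
    refine Finset.sum_congr rfl fun j _ => ?_
    simp [w']
  by_cases hex : ∃ i, 0 < a i
  · obtain ⟨i, hi⟩ := hex
    have hnn : ∀ j, 0 ≤ a j := fun j => by
      by_contra h
      exact hsign i j hi (not_le.1 h)
    have h1 := D.comb hM hS hR.le hR1 hST hg hnn fun j hj => by rw [D.v_coe]; exact hpos j hj
    have h2 : ∑ j, a j = ‖ζ‖ := by
      rw [← hnorm]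
      exact Finset.sum_congr rfl fun j _ => (abs_of_nonneg (hnn j)).symm
    rw [h2, ← hJ2, ← hJ1] at h1
    exact h1
  · push Not at hex
    have hnn : ∀ j, 0 ≤ -a j := fun j => by linarith [hex j]
    have h1 := D.comb hM hS hR.le hR1 hST hg' hnn fun j hj => by
      rw [D.v_coe]
      change -(g (S (ev (D.w M) j))) = R
      rw [hneg j (by linarith)]
      ring
    have h2 : ∑ j, -a j = ‖ζ‖ := by
      rw [← hnorm]
      exact Finset.sum_congr rfl fun j _ => (abs_of_nonpos (hex j)).symm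
    have h3 : ∑ j : Fin (2 * M + 1), -a j * ((D.φ M j)⁻¹ * (-1) ^ (j : ℕ))
        = -JJ (D.w M) ζ 2 := by
      rw [hJ2, ← Finset.sum_neg_distrib]
      exact Finset.sum_congr rfl fun j _ => neg_mul _ _
    have h4 : ∑ j : Fin (2 * M + 1), -a j * ((D.φ M j)⁻¹ * D.s M j) = -JJ (D.w M) ζ 1 := by
      rw [hJ1, ← Finset.sum_neg_distrib]
      exact Finset.sum_congr rfl fun j _ => neg_mul _ _
    rw [h2, h3, h4, abs_neg, abs_neg] at h1
    exact h1

end

end Par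

end Pool.Agent.Lib.MP_b6bd4b_an.BP
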