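import Mathlib

/-!
Operators on `ℓ₁`-sums over an arbitrary index type.
-/

open scoped ENNReal

namespace Pool.Agent.Lib.MP_b6bd4b_an.BP

variable {ι : Type*} [DecidableEq ι] {Z : ι → Type*} [∀ n, NormedAddCommGroup (Z n)]
  [∀ n, NormedSpace ℝ (Z n)]
variable {F : Type*} [NormedAddCommGroup F] [NormedSpace ℝ F]

theorem hasSum_norm_one (z : lp Z 1) : HasSum (fun n => ‖z n‖) ‖z‖ := by
  have h := lp.hasSum_norm (p := 1) (by norm_num) z
  simpa using h

theorem hasSum_op (S : lp Z 1 →L[ℝ] F) (z : lp Z 1) :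
    HasSum (fun n => S (lp.single 1 n (z n))) (S z) :=
  (lp.hasSum_single (by norm_num) z).mapL S

theorem norm_single_one (n : ι) (y : Z n) : ‖(lp.single 1 n y : lp Z 1)‖ = ‖y‖ :=
  lp.norm_single (by norm_num) n y

/-- an operator which attains its norm at `z` attains it at all components of `z` -/
theorem attain_component (S : lp Z 1 →L[ℝ] F) (z : lp Z 1) (hz : ‖S z‖ = ‖S‖ * ‖z‖) (n : ι) :
    ‖S (lp.single 1 n (z n))‖ = ‖S‖ * ‖z n‖ := by
  have hle : ∀ m, ‖S (lp.single 1 m (z m))‖ ≤ ‖S‖ * ‖z m‖ := by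
    intro m
    have := S.le_opNorm (lp.single 1 m (z m))
    rwa [norm_single_one] at this
  have h1 := (hasSum_norm_one z).mul_left ‖S‖
  have hs : Summable fun m => ‖S (lp.single 1 m (z m))‖ :=
    Summable.of_nonneg_of_le (fun _ => norm_nonneg _) hle h1.summable
  have h2 : ‖S z‖ ≤ ∑' m, ‖S (lp.single 1 m (z m))‖ := by
    rw [← (hasSum_op S z).tsum_eq]
    exact norm_tsum_le_tsum_norm hs
  by_contra hne
  have hlt : ‖S (lp.single 1 n (z n))‖ < ‖S‖ * ‖z n‖ := lt_of_le_of_ne (hle n) hne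
  have h3 : ∑' m, ‖S (lp.single 1 m (z m))‖ < ∑' m, ‖S‖ * ‖z m‖ :=
    hs.tsum_lt_tsum hle hlt h1.summable
  rw [h1.tsum_eq] at h3
  linarith

/-- the operator with given components -/
noncomputable def sumOp [CompleteSpace F] (t : ∀ n, Z n →L[ℝ] F) (ht : ∀ n y, ‖t n y‖ ≤ ‖y‖) :
    lp Z 1 →L[ℝ] F :=
  LinearMap.mkContinuous
    { toFun := fun z => ∑' n, t n (z n)
      map_add' := fun x y => by
        have hx : Summable fun n => t n (x n) :=
          Summable.of_norm_bounded (hasSum_norm_one x).summable fun n => ht n (x n)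
        have hy : Summable fun n => t n (y n) :=
          Summable.of_norm_bounded (hasSum_norm_one y).summable fun n => ht n (y n)
        rw [← hx.tsum_add hy]
        apply tsum_congr
        intro n
        rw [lp.coeFn_add, Pi.add_apply, map_add]
      map_smul' := fun c x => by
        have hx : Summable fun n => t n (x n) :=
          Summable.of_norm_bounded (hasSum_norm_one x).summable fun n => ht n (x n)
        rw [RingHom.id_apply, ← hx.tsum_const_smul]
        apply tsum_congr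
        intro n
        rw [lp.coeFn_smul, Pi.smul_apply, map_smul] } 1 (fun z => by
      have hs : Summable fun n => ‖t n (z n)‖ :=
        Summable.of_nonneg_of_le (fun _ => norm_nonneg _) (fun n => ht n (z n))
          (hasSum_norm_one z).summable
      simp only [LinearMap.coe_mk, AddHom.coe_mk, one_mul]
      calc ‖∑' n, t n (z n)‖ ≤ ∑' n, ‖t n (z n)‖ := norm_tsum_le_tsum_norm hs
        _ ≤ ∑' n, ‖z n‖ := hs.tsum_le_tsum (fun n => ht n (z n)) (hasSum_norm_one z).summable
        _ = ‖z‖ := (hasSum_norm_one z).tsum_eq)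

theorem sumOp_apply [CompleteSpace F] (t : ∀ n, Z n →L[ℝ] F) (ht : ∀ n y, ‖t n y‖ ≤ ‖y‖)
    (z : lp Z 1) : sumOp t ht z = ∑' n, t n (z n) := rfl

theorem sumOp_single [CompleteSpace F] (t : ∀ n, Z n →L[ℝ] F) (ht : ∀ n y, ‖t n y‖ ≤ ‖y‖)
    (n : ι) (y : Z n) : sumOp t ht (lp.single 1 n y) = t n y := by
  rw [sumOp_apply, tsum_eq_single n]
  · rw [lp.single_apply_self]
  · intro m hm
    rw [lp.single_apply_ne _ _ _ hm, map_zero]

/-- Norm attaining operators on a countable `ℓ₁`-sum of spaces with compact balls are dense. -/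
theorem dense_attain [∀ n, ProperSpace (Z n)] :
    Dense {S : lp Z 1 →L[ℝ] F | ∃ x : lp Z 1, ‖x‖ ≤ 1 ∧ ‖S x‖ = ‖S‖} := by
  rw [Metric.dense_iff]
  intro S r hr
  by_cases hS : S = 0
  · exact ⟨S, Metric.mem_ball_self hr, 0, by simp, by simp [hS]⟩
  have hSn : 0 < ‖S‖ := norm_pos_iff.2 hS
  -- a component with large norm
  set c : ℝ := min (r / (2 * ‖S‖)) 1 with hc
  have hc0 : 0 < c := by positivity
  have hc1 : c ≤ 1 := min_le_right _ _
  have hcr : c * ‖S‖ ≤ r / 2 := by
    calc c * ‖S‖ ≤ r / (2 * ‖S‖) * ‖S‖ := by gcongr; exact min_le_left _ _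
      _ = r / 2 := by field_simp
  have hex : ∃ n, ‖S‖ / (1 + c) < ‖S.comp (lp.singleContinuousLinearMap ℝ Z 1 n)‖ := by
    by_contra h
    push Not at h
    have h1 : ‖S‖ ≤ ‖S‖ / (1 + c) := by
      apply S.opNorm_le_bound (by positivity)
      intro z
      have hle : ∀ m, ‖S (lp.single 1 m (z m))‖ ≤ ‖S‖ / (1 + c) * ‖z m‖ := by
        intro m
        have := (S.comp (lp.singleContinuousLinearMap ℝ Z 1 m)).le_of_opNorm_le (h m) (z m)
        simpa using this
      have h1 := (hasSum_norm_one z).mul_left (‖S‖ / (1 + c))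
      have hs : Summable fun m => ‖S (lp.single 1 m (z m))‖ :=
        Summable.of_nonneg_of_le (fun _ => norm_nonneg _) hle h1.summable
      rw [← (hasSum_op S z).tsum_eq]
      refine (norm_tsum_le_tsum_norm hs).trans ?_
      rw [← h1.tsum_eq]
      exact hs.tsum_le_tsum hle h1.summable
    have h2 : ‖S‖ / (1 + c) < ‖S‖ := by
      rw [div_lt_iff₀ (by positivity)]
      nlinarith
    linarith
  obtain ⟨n, hn⟩ := hex
  set Sn : Z n →L[ℝ] F := S.comp (lp.singleContinuousLinearMap ℝ Z 1 n) with hSnd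
  -- the projection
  let pr : lp Z 1 →L[ℝ] Z n := LinearMap.mkContinuous
    { toFun := fun z => z n
      map_add' := fun x y => by rw [lp.coeFn_add, Pi.add_apply]
      map_smul' := fun a x => by rw [lp.coeFn_smul, Pi.smul_apply, RingHom.id_apply] } 1
    (fun z => by
      rw [one_mul]
      exact lp.norm_apply_le_norm (by norm_num) z n)
  have hpr : ∀ z : lp Z 1, pr z = z n := fun z => rfl
  set S' : lp Z 1 →L[ℝ] F := S + c • (Sn.comp pr) with hS'
  have hSnle : ‖Sn‖ ≤ ‖S‖ := by
    apply Sn.opNorm_le_bound (norm_nonneg _)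
    intro y
    have := S.le_opNorm (lp.single 1 n y)
    rw [norm_single_one] at this
    exact this
  -- the norm of the new operator
  have hS'1 : ∀ y : Z n, S' (lp.single 1 n y) = (1 + c) • Sn y := by
    intro y
    have h1 : Sn y = S (lp.single 1 n y) := rfl
    have h2 : (lp.single 1 n y : lp Z 1) n = y := lp.single_apply_self _ _ _
    rw [hS', _root_.ContinuousLinearMap.add_apply, _root_.ContinuousLinearMap.smul_apply,
      ContinuousLinearMap.comp_apply, hpr, h2, add_smul, one_smul, h1]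
  have hS'2 : ∀ m, m ≠ n → ∀ y : Z m, S' (lp.single 1 m y) = S (lp.single 1 m y) := by
    intro m hm y
    have h2 : (lp.single 1 m y : lp Z 1) n = 0 := lp.single_apply_ne _ _ _ (Ne.symm hm)
    rw [hS', _root_.ContinuousLinearMap.add_apply, _root_.ContinuousLinearMap.smul_apply,
      ContinuousLinearMap.comp_apply, hpr, h2, map_zero, smul_zero, add_zero]
  have hbig : ‖S‖ ≤ (1 + c) * ‖Sn‖ := by
    rw [div_lt_iff₀ (by positivity)] at hn
    linarith
  have hS'n : ‖S'‖ ≤ (1 + c) * ‖Sn‖ := by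
    apply S'.opNorm_le_bound (by positivity)
    intro z
    have hle : ∀ m, ‖S' (lp.single 1 m (z m))‖ ≤ (1 + c) * ‖Sn‖ * ‖z m‖ := by
      intro m
      by_cases hm : m = n
      · subst hm
        rw [hS'1, norm_smul, Real.norm_of_nonneg (by positivity), mul_assoc]
        gcongr
        exact Sn.le_opNorm _
      · rw [hS'2 m hm]
        have := S.le_opNorm (lp.single 1 m (z m))
        rw [norm_single_one] at this
        refine this.trans ?_
        gcongr
    have h1 := (hasSum_norm_one z).mul_left ((1 + c) * ‖Sn‖)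
    have hs : Summable fun m => ‖S' (lp.single 1 m (z m))‖ :=
      Summable.of_nonneg_of_le (fun _ => norm_nonneg _) hle h1.summable
    rw [← (hasSum_op S' z).tsum_eq]
    refine (norm_tsum_le_tsum_norm hs).trans ?_
    rw [← h1.tsum_eq]
    exact hs.tsum_le_tsum hle h1.summable
  -- attained on the component
  obtain ⟨y, hy1, hy2⟩ : ∃ y : Z n, ‖y‖ ≤ 1 ∧ ‖Sn y‖ = ‖Sn‖ := by
    have hcomp : IsCompact (Metric.closedBall (0 : Z n) 1) := isCompact_closedBall _ _
    obtain ⟨y, hy, hmax⟩ := hcomp.exists_isMaxOn ⟨0, by simp⟩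
      ((Sn.continuous.norm).continuousOn)
    refine ⟨y, by simpa using hy, le_antisymm ?_ ?_⟩
    · calc ‖Sn y‖ ≤ ‖Sn‖ * ‖y‖ := Sn.le_opNorm y
        _ ≤ ‖Sn‖ * 1 := by gcongr; simpa using hy
        _ = ‖Sn‖ := mul_one _
    · apply Sn.opNorm_le_of_unit_norm (norm_nonneg _)
      intro x hx
      exact hmax (by simp [hx])
  refine ⟨S', ?_, lp.single 1 n y, ?_, ?_⟩
  · rw [Metric.mem_ball, dist_eq_norm, hS', add_sub_cancel_left, norm_smul,
      Real.norm_of_nonneg hc0.le]
    have h1 : ‖Sn.comp pr‖ ≤ ‖S‖ := by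
      apply ContinuousLinearMap.opNorm_le_bound _ (norm_nonneg _)
      intro z
      rw [ContinuousLinearMap.comp_apply, hpr]
      calc ‖Sn (z n)‖ ≤ ‖Sn‖ * ‖z n‖ := Sn.le_opNorm _
        _ ≤ ‖S‖ * ‖z‖ := by
          gcongr
          exact lp.norm_apply_le_norm (by norm_num) z n
    calc c * ‖Sn.comp pr‖ ≤ c * ‖S‖ := by gcongr
      _ ≤ r / 2 := hcr
      _ < r := by linarith
  · rw [norm_single_one]; exact hy1
  · have h1 : ‖S' (lp.single 1 n y)‖ = (1 + c) * ‖Sn‖ := by
      rw [hS'1, norm_smul, Real.norm_of_nonneg (by positivity), hy2]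
    apply le_antisymm
    · calc ‖S' (lp.single 1 n y)‖ ≤ ‖S'‖ * ‖(lp.single 1 n y : lp Z 1)‖ := S'.le_opNorm _
        _ ≤ ‖S'‖ * 1 := by gcongr; rw [norm_single_one]; exact hy1
        _ = ‖S'‖ := mul_one _
    · rw [h1]; exact hS'n

end Pool.Agent.Lib.MP_b6bd4b_an.BP
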