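import Mathlib
import Pool.Agent.Lib.MP_b6bd4b_an.BP.Sum
import Pool.Agent.Lib.MP_b6bd4b_an.BP.Calc
import Pool.Agent.Lib.MP_b6bd4b_an.BP.Far

/-!
The `ℓ₁`-sum of all blocks.
-/

open Set

namespace Pool.Agent.Lib.MP_b6bd4b_an.BP

/-- the index type -/
abbrev Idx : Type := Σ k : ℕ, (Fin k → Fin 3 → ℝ)

/-- the blocks -/
abbrev ZZ (i : Idx) : Type := Blk i.2

/-- the space -/
abbrev XX : Type := lp ZZ 1

variable {Y : Type*} [NormedAddCommGroup Y] [NormedSpace ℝ Y]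

/-- the linear map `p ↦ p 0 • y + p 1 • e` -/
noncomputable def gg (y e : Y) : (Fin 3 → ℝ) →ₗ[ℝ] Y :=
  (LinearMap.proj (R := ℝ) (φ := fun _ : Fin 3 => ℝ) 0).smulRight y
    + (LinearMap.proj (R := ℝ) (φ := fun _ : Fin 3 => ℝ) 1).smulRight e

theorem gg_apply (y e : Y) (p : Fin 3 → ℝ) : gg y e p = p 0 • y + p 1 • e := rfl

open Classical in
/-- the component -/
noncomputable def tt (y e : Y) (i : Idx) : ZZ i →L[ℝ] Y :=
  if ∀ j, ‖gg y e (i.2 j)‖ ≤ 1 then TW y e i.2 else 0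

theorem tt_le (y e : Y) (i : Idx) (ξ : ZZ i) : ‖tt y e i ξ‖ ≤ ‖ξ‖ := by
  classical
  unfold tt
  split_ifs with h
  · have := bound i.2 (gg y e) zero_le_one h ξ
    rwa [one_mul] at this
  · simp

/-- the parameters exist -/
theorem exists_par {y e : Y} (h : ContDiffAt ℝ 2 (fun v : Y => ‖v‖) y)
    (he : iteratedDeriv 2 (fun s : ℝ => ‖y + s • e‖) 0 ≠ 0) : ∃ D : Par Y, D.y = y ∧ D.e = e := by
  obtain ⟨κ, r, hκ, hr, h1, h2⟩ := calc_main h he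
  have hy : y ≠ 0 := by
    rintro rfl
    have h3 : DifferentiableAt ℝ (fun v : Y => ‖v‖) 0 := h.differentiableAt (by norm_num)
    by_cases he0 : e = 0
    · apply he
      simp [he0]
    · have : Nontrivial Y := ⟨e, 0, he0⟩
      exact not_differentiableAt_norm_zero Y h3
  have hy0 : 0 < ‖y‖ := norm_pos_iff.2 hy
  have he0 : 0 ≤ ‖e‖ := norm_nonneg e
  set ρ : ℝ := min r (min (r / (2 * (‖e‖ + 1))) (‖y‖ / (16 * (‖e‖ + 1)))) with hρd
  have hρ : 0 < ρ := lt_min hr (lt_min (by positivity) (by positivity))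
  have hρe1 : ρ * ‖e‖ ≤ r / 2 := by
    have h3 : ρ ≤ r / (2 * (‖e‖ + 1)) := (min_le_right _ _).trans (min_le_left _ _)
    calc ρ * ‖e‖ ≤ r / (2 * (‖e‖ + 1)) * (‖e‖ + 1) := by gcongr; linarith
      _ = r / 2 := by field_simp
  have hρe2 : ρ * ‖e‖ ≤ ‖y‖ / 16 := by
    have h3 : ρ ≤ ‖y‖ / (16 * (‖e‖ + 1)) := (min_le_right _ _).trans (min_le_right _ _)
    calc ρ * ‖e‖ ≤ ‖y‖ / (16 * (‖e‖ + 1)) * (‖e‖ + 1) := by gcongr; linarith
      _ = ‖y‖ / 16 := by field_simp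
  set ε : ℝ := min (1 / 10) (min (r / (4 * ‖y‖)) (r * ρ / (2 * ‖y‖))) with hεd
  have hε : 0 < ε := lt_min (by norm_num) (lt_min (by positivity) (by positivity))
  have hε2 : ε * (2 * ‖y‖) ≤ r / 2 := by
    have h3 : ε ≤ r / (4 * ‖y‖) := (min_le_right _ _).trans (min_le_left _ _)
    calc ε * (2 * ‖y‖) ≤ r / (4 * ‖y‖) * (2 * ‖y‖) := by gcongr
      _ = r / 2 := by field_simp; norm_num
  have hε3 : ε * (2 * ‖y‖) ≤ r * ρ := by
    have h3 : ε ≤ r * ρ / (2 * ‖y‖) := (min_le_right _ _).trans (min_le_right _ _)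
    calc ε * (2 * ‖y‖) ≤ r * ρ / (2 * ‖y‖) * (2 * ‖y‖) := by gcongr
      _ = r * ρ := by field_simp
  exact ⟨⟨y, e, κ, r, ρ, ε, hκ, hr, hρ, hε, hy0, h1, h2, min_le_left _ _, hρe1, hρe2,
    min_le_left _ _, hε2, hε3⟩, rfl, rfl⟩

namespace Par

variable (D : Par Y)

theorem contr {M : ℕ} (hM : 2 ≤ M) (j : Fin (2 * M + 1)) : ‖gg D.y D.e (D.w M j)‖ = 1 := by
  have hj : (j : ℕ) ≤ 2 * M := by have := j.2; omega
  have h1 : gg D.y D.e (D.w M j) = (D.φ M j)⁻¹ • (D.y + D.s M j • D.e) := by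
    rw [gg_apply]
    simp [w, w', smul_add, smul_smul]
  rw [h1, norm_smul, Real.norm_of_nonneg (inv_pos.2 (D.φ_pos hM hj)).le]
  exact inv_mul_cancel₀ (D.φ_pos hM hj).ne'

theorem tt_eq {M : ℕ} (hM : 2 ≤ M) :
    tt D.y D.e ⟨2 * M + 1, D.w M⟩ = TW D.y D.e (D.w M) := by
  classical
  unfold tt
  rw [if_pos]
  exact fun j => (D.contr hM j).le

theorem J2_le {M : ℕ} (hM : 2 ≤ M) (ξ : Blk (D.w M)) :
    |JJ (D.w M) ξ 2| ≤ 16 / (15 * ‖D.y‖) * ‖ξ‖ := by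
  have hy := D.hy
  refine bound (D.w M) (LinearMap.proj (R := ℝ) (φ := fun _ : Fin 3 => ℝ) 2) (by positivity)
    (fun j => ?_) ξ
  have hj : (j : ℕ) ≤ 2 * M := by have := j.2; omega
  have h1 : LinearMap.proj (R := ℝ) (φ := fun _ : Fin 3 => ℝ) 2 (D.w M j)
      = (D.φ M j)⁻¹ * (-1) ^ (j : ℕ) := by
    simp [w, w']
  rw [h1, Real.norm_eq_abs, abs_mul, abs_pow, abs_neg, abs_one, one_pow, mul_one,
    abs_of_pos (inv_pos.2 (D.φ_pos hM hj))]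
  exact D.φ_inv' hM hj

theorem J1_le {M : ℕ} (hM : 2 ≤ M) (ξ : Blk (D.w M)) :
    |JJ (D.w M) ξ 1| ≤ 16 / (15 * ‖D.y‖) * D.ρ * ‖ξ‖ := by
  have hy := D.hy
  have hρ := D.hρ
  refine bound (D.w M) (LinearMap.proj (R := ℝ) (φ := fun _ : Fin 3 => ℝ) 1) (by positivity)
    (fun j => ?_) ξ
  have hj : (j : ℕ) ≤ 2 * M := by have := j.2; omega
  have h1 : LinearMap.proj (R := ℝ) (φ := fun _ : Fin 3 => ℝ) 1 (D.w M j)
      = (D.φ M j)⁻¹ * D.s M j := by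
    simp [w, w']
  rw [h1, Real.norm_eq_abs, abs_mul, abs_of_pos (inv_pos.2 (D.φ_pos hM hj))]
  have h2 := D.φ_inv' hM hj
  have h3 := D.abs_s hM hj
  gcongr

theorem T_c {M : ℕ} (hM : 2 ≤ M) : TW D.y D.e (D.w M) (D.c M) = D.y := by
  rw [TW_apply, D.J_c hM]
  simp

theorem TW_le {M : ℕ} (hM : 2 ≤ M) (ξ : Blk (D.w M)) : ‖TW D.y D.e (D.w M) ξ‖ ≤ ‖ξ‖ := by
  have := tt_le D.y D.e ⟨2 * M + 1, D.w M⟩ ξ
  rwa [D.tt_eq hM] at this

theorem c_lo {M : ℕ} (hM : 2 ≤ M) : ‖D.y‖ ≤ ‖D.c M‖ := by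
  have := D.TW_le hM (D.c M)
  rwa [D.T_c hM] at this

theorem c_hi {M : ℕ} (hM : 2 ≤ M) : ‖D.c M‖ ≤ ‖D.y‖ * (1 + 1 / M) := by
  have hM0 : (0 : ℝ) < M := by positivity
  have hy := D.hy
  have h1 : ∀ i, i ≤ 2 * M → ‖D.φ M i • D.v M i‖ ≤ D.φ M i := fun i hi => D.norm_φv hM hi
  have hφ : ∀ i, |D.s M i| = D.ρ / M → D.φ M i ≤ ‖D.y‖ + ‖D.y‖ / M := by
    intro i hi
    have h2 : D.φ M i ≤ ‖D.y‖ + ‖D.s M i • D.e‖ := norm_add_le _ _
    rw [norm_smul, Real.norm_eq_abs, hi] at h2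
    have h3 : D.ρ / M * ‖D.e‖ ≤ ‖D.y‖ / M := by
      rw [div_mul_eq_mul_div]
      have := D.hρ2
      gcongr
      linarith
    linarith
  have hp : D.φ M (M + 1) ≤ ‖D.y‖ + ‖D.y‖ / M := by
    refine hφ _ ?_
    rw [D.s_succ hM, D.s_mid, zero_add, abs_of_pos (div_pos D.hρ hM0)]
  have hm : D.φ M (M - 1) ≤ ‖D.y‖ + ‖D.y‖ / M := by
    refine hφ _ ?_
    obtain ⟨n, rfl⟩ : ∃ n, M = n + 1 := ⟨M - 1, by omega⟩
    have e : n + 1 - 1 = n := rfl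
    have h2 := D.s_succ hM n
    rw [D.s_mid] at h2
    rw [e]
    have h3 : D.s (n + 1) n = -(D.ρ / ((n + 1 : ℕ) : ℝ)) := by linarith
    rw [h3, abs_neg, abs_of_pos (div_pos D.hρ hM0)]
  have h2 : ‖D.c M‖ ≤ 1 / 2 * D.φ M M + 1 / 4 * (D.φ M (M + 1) + D.φ M (M - 1)) := by
    unfold c
    refine (norm_add_le _ _).trans ?_
    rw [norm_smul (1 / 2 : ℝ), norm_smul (1 / 4 : ℝ),
      Real.norm_of_nonneg (by norm_num : (0 : ℝ) ≤ 1 / 2),
      Real.norm_of_nonneg (by norm_num : (0 : ℝ) ≤ 1 / 4)]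
    have h3 := h1 M (by omega)
    have h4 := (norm_add_le (D.φ M (M + 1) • D.v M (M + 1)) (D.φ M (M - 1) • D.v M (M - 1))).trans
      (add_le_add (h1 (M + 1) (by omega)) (h1 (M - 1) (by omega)))
    linarith
  rw [D.φ_mid] at h2
  have h5 : ‖D.y‖ * (1 + 1 / M) = ‖D.y‖ + ‖D.y‖ / M := by ring
  rw [h5]
  have h6 : 0 < ‖D.y‖ / M := by positivity
  linarith

end Par

/-- **Main theorem.** -/
theorem main [CompleteSpace Y] {y e : Y} (h : ContDiffAt ℝ 2 (fun v : Y => ‖v‖) y)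
    (he : iteratedDeriv 2 (fun s : ℝ => ‖y + s • e‖) 0 ≠ 0) :
    ∃ ε : ℝ, 0 < ε ∧ ∃ T : XX →L[ℝ] Y, ‖T‖ = 1 ∧ ∀ η : ℝ, 0 < η → ∃ x : XX, ‖x‖ = 1 ∧
      1 - η < ‖T x‖ ∧ ∀ (S : XX →L[ℝ] Y) (z : XX), ‖S - T‖ < ε → ‖z‖ = 1 → ‖S z‖ = ‖S‖ →
        ε ≤ ‖z - x‖ := by
  classical
  obtain ⟨D, hDy, hDe⟩ := exists_par h he
  have hy := D.hy
  have hρ := D.hρ
  set T : XX →L[ℝ] Y := sumOp (tt D.y D.e) (tt_le D.y D.e) with hT
  have hTle : ‖T‖ ≤ 1 := LinearMap.mkContinuous_norm_le _ zero_le_one _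
  have hTs : ∀ {M : ℕ} (_ : 2 ≤ M) (ξ : Blk (D.w M)),
      T (lp.single 1 (⟨2 * M + 1, D.w M⟩ : Idx) ξ) = TW D.y D.e (D.w M) ξ := by
    intro M hM ξ
    rw [hT, sumOp_single, D.tt_eq hM]
  have hx : ∀ {M : ℕ} (_ : 2 ≤ M), ‖D.y‖ / ‖D.c M‖
      = ‖T (lp.single 1 (⟨2 * M + 1, D.w M⟩ : Idx) (‖D.c M‖⁻¹ • D.c M))‖ := by
    intro M hM
    rw [hTs hM, map_smul, D.T_c hM, norm_smul, norm_inv, norm_norm, div_eq_inv_mul]
  have hlow : ∀ {M : ℕ} (_ : 2 ≤ M), 1 - 1 / (M : ℝ) ≤ ‖D.y‖ / ‖D.c M‖ := by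
    intro M hM
    have hM0 : (0 : ℝ) < M := by positivity
    have h1 := D.c_hi hM
    have h2 := D.c_lo hM
    have h3 : 0 < ‖D.c M‖ := lt_of_lt_of_le hy h2
    rw [le_div_iff₀ h3]
    have h4 : 0 ≤ 1 - 1 / (M : ℝ) := by
      have : (1 : ℝ) ≤ M := by
        have : (2 : ℝ) ≤ M := by exact_mod_cast hM
        linarith
      rw [sub_nonneg, div_le_one hM0]
      exact this
    calc (1 - 1 / (M : ℝ)) * ‖D.c M‖ ≤ (1 - 1 / (M : ℝ)) * (‖D.y‖ * (1 + 1 / M)) :=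
          mul_le_mul_of_nonneg_left h1 h4
      _ = ‖D.y‖ * (1 - (1 / M) ^ 2) := by ring
      _ ≤ ‖D.y‖ := by
          have : 0 ≤ (1 / (M : ℝ)) ^ 2 := by positivity
          nlinarith
  have hxn : ∀ {M : ℕ} (_ : 2 ≤ M),
      ‖(lp.single 1 (⟨2 * M + 1, D.w M⟩ : Idx) (‖D.c M‖⁻¹ • D.c M) : XX)‖ = 1 := by
    intro M hM
    have h3 : 0 < ‖D.c M‖ := lt_of_lt_of_le hy (D.c_lo hM)
    rw [norm_single_one, norm_smul, norm_inv, norm_norm, inv_mul_cancel₀ h3.ne']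
  have hbig : ∀ η : ℝ, 0 < η → ∃ M : ℕ, 2 ≤ M ∧ 1 / (M : ℝ) < η := by
    intro η hη
    obtain ⟨n, hn⟩ := exists_nat_gt (1 / η)
    refine ⟨n + 2, by omega, ?_⟩
    have h1 : 0 < 1 / η := by positivity
    rw [div_lt_comm₀ (by positivity) hη]
    push_cast
    linarith
  refine ⟨D.ε, D.hε, T, le_antisymm hTle ?_, fun η hη => ?_⟩
  · -- norm one
    refine le_of_forall_pos_le_add fun η hη => ?_
    obtain ⟨M, hM, hMη⟩ := hbig η hη
    have h1 := hlow hM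
    rw [hx hM] at h1
    have h2 := T.le_opNorm (lp.single 1 (⟨2 * M + 1, D.w M⟩ : Idx) (‖D.c M‖⁻¹ • D.c M))
    rw [hxn hM, mul_one] at h2
    linarith
  · obtain ⟨M, hM, hMη⟩ := hbig η hη
    refine ⟨lp.single 1 (⟨2 * M + 1, D.w M⟩ : Idx) (‖D.c M‖⁻¹ • D.c M), hxn hM, ?_, ?_⟩
    · rw [← hx hM]
      have := hlow hM
      linarith
    · intro S z hST hz hSz
      by_contra hlt
      push Not at hlt
      set n : Idx := ⟨2 * M + 1, D.w M⟩ with hn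
      set x₁ : ZZ n := ‖D.c M‖⁻¹ • D.c M with hx₁
      have hε1 := D.hε1
      -- the restriction of `S`
      let S₁ : Blk (D.w M) →L[ℝ] Y := S.comp (lp.singleContinuousLinearMap ℝ ZZ 1 n)
      have hS₁ : ∀ ξ : Blk (D.w M), S₁ ξ = S (lp.single 1 n ξ) := fun ξ => rfl
      have hSb : ∀ ξ, ‖S₁ ξ‖ ≤ ‖S‖ * ‖ξ‖ := by
        intro ξ
        rw [hS₁]
        have := S.le_opNorm (lp.single 1 n ξ)
        rwa [norm_single_one] at this
      have hR1 : ‖S‖ ≤ 11 / 10 := by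
        have h1 : ‖S‖ ≤ ‖S - T‖ + ‖T‖ := by
          have := norm_add_le (S - T) T
          rwa [sub_add_cancel] at this
        linarith
      have hR0 : 9 / 10 ≤ ‖S‖ := by
        -- `‖T‖ = 1`
        have h0 : 1 ≤ ‖T‖ := by
          refine le_of_forall_pos_le_add fun η' hη' => ?_
          obtain ⟨M', hM', hMη'⟩ := hbig η' hη'
          have h1 := hlow hM'
          rw [hx hM'] at h1
          have h2 := T.le_opNorm (lp.single 1 (⟨2 * M' + 1, D.w M'⟩ : Idx)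
            (‖D.c M'‖⁻¹ • D.c M'))
          rw [hxn hM', mul_one] at h2
          linarith
        have h1 : ‖T‖ ≤ ‖T - S‖ + ‖S‖ := by
          have := norm_add_le (T - S) S
          rwa [sub_add_cancel] at this
        rw [norm_sub_rev] at h1
        linarith
      have hST₁ : ∀ ξ, ‖S₁ ξ - TW D.y D.e (D.w M) ξ‖ ≤ D.ε * ‖ξ‖ := by
        intro ξ
        rw [hS₁, ← hTs hM ξ]
        have h2 := (S - T).le_of_opNorm_le hST.le (lp.single 1 n ξ)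
        rw [norm_single_one] at h2
        exact h2
      have hatt : ‖S₁ (z n)‖ = ‖S‖ * ‖z n‖ := attain_component S z (by rw [hSz, hz, mul_one]) n
      -- the distance in the block
      have hdist : ‖z n - x₁‖ ≤ ‖z - lp.single 1 n x₁‖ := by
        have h1 := lp.norm_apply_le_norm (p := 1) (by norm_num) (z - lp.single 1 n x₁) n
        rw [lp.coeFn_sub, Pi.sub_apply, lp.single_apply_self] at h1
        exact h1
      have hdist2 : ‖z n - x₁‖ ≤ 1 / 10 := by linarith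
      have h3 : 0 < ‖D.c M‖ := lt_of_lt_of_le hy (D.c_lo hM)
      have hx₁n : ‖x₁‖ = 1 := by
        rw [hx₁, norm_smul, norm_inv, norm_norm, inv_mul_cancel₀ h3.ne']
      have hzn : 9 / 10 ≤ ‖z n‖ := by
        have h1 := norm_sub_norm_le x₁ (z n)
        rw [norm_sub_rev, hx₁n] at h1
        linarith
      have hJx : JJ (D.w M) x₁ = ‖D.c M‖⁻¹ • ![1, 0, 0] := by
        rw [hx₁, map_smul, D.J_c hM]
      rcases D.far hM hSb hR0 hR1 hST₁ hatt with h5 | h5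
      · have h6 := D.J2_le hM (z n - x₁)
        rw [map_sub, Pi.sub_apply, hJx] at h6
        simp only [Pi.smul_apply, Matrix.cons_val, smul_eq_mul, mul_zero, sub_zero] at h6
        have h7 : ‖z n‖ / (2 * ‖D.y‖) ≤ 16 / (15 * ‖D.y‖) * (1 / 10) := by
          refine h5.trans (h6.trans ?_)
          gcongr
        have h8 : 9 / 10 / (2 * ‖D.y‖) ≤ 16 / (15 * ‖D.y‖) * (1 / 10) := by
          refine le_trans ?_ h7
          gcongr
        rw [div_mul_eq_mul_div, div_le_div_iff₀ (by positivity) (by positivity)] at h8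
        nlinarith
      · have h6 := D.J1_le hM (z n - x₁)
        rw [map_sub, Pi.sub_apply, hJx] at h6
        simp only [Pi.smul_apply, Matrix.cons_val, smul_eq_mul, mul_zero, sub_zero] at h6
        have h7 : D.ρ * ‖z n‖ / (4 * ‖D.y‖) ≤ 16 / (15 * ‖D.y‖) * D.ρ * (1 / 10) := by
          refine h5.trans (h6.trans ?_)
          gcongr
        have h8 : D.ρ * (9 / 10) / (4 * ‖D.y‖) ≤ 16 / (15 * ‖D.y‖) * D.ρ * (1 / 10) := by
          refine le_trans ?_ h7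
          gcongr
        have h9 : 16 / (15 * ‖D.y‖) * D.ρ * (1 / 10) = 16 * D.ρ * (1 / 10) / (15 * ‖D.y‖) := by
          ring
        rw [h9, div_le_div_iff₀ (by positivity) (by positivity)] at h8
        have h10 : 0 < D.ρ * ‖D.y‖ := by positivity
        nlinarith

end Pool.Agent.Lib.MP_b6bd4b_an.BP
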